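import Pool.Agent.Helper965.CN.Abs
import Pool.Agent.Helper965.CN.TB
set_option autoImplicit false
open scoped TensorProduct ComplexOrder BigOperators

namespace Pool.Agent.Helper22K.FN
open Pool.Agent.Helper965.CN

/-- C*-seminorms on a complex *-algebra. -/
structure IsSemi {T : Type} [Ring T] [StarRing T] [Algebra ℂ T] (N : T → ℝ) : Prop where
  nonneg : ∀ x, 0 ≤ N x
  add_le : ∀ x y, N (x + y) ≤ N x + N y
  smul : ∀ (c : ℂ) (x : T), N (c • x) = ‖c‖ * N x
  mul_le : ∀ x y, N (x * y) ≤ N x * N y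
  norm_star : ∀ x, N (star x) = N x
  cstar : ∀ x, N (star x * x) = N x ^ 2

section basic
variable {T : Type} [Ring T] [StarRing T] [Algebra ℂ T] {N : T → ℝ}

theorem toSemi (h : IsCStarNorm N) : IsSemi N :=
  ⟨h.nonneg, h.add_le, h.smul, h.mul_le, h.norm_star, h.cstar⟩

theorem IsSemi.toNorm (h : IsSemi N) (h0 : ∀ x, N x = 0 → x = 0) : IsCStarNorm N :=
  ⟨h.nonneg, h0, h.add_le, h.smul, h.mul_le, h.norm_star, h.cstar⟩

theorem IsSemi.zero (h : IsSemi N) : N 0 = 0 := by
  have := h.smul 0 0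
  simpa using this

theorem IsSemi.neg (h : IsSemi N) (x : T) : N (-x) = N x := by
  have := h.smul (-1) x
  simpa using this

theorem IsSemi.sub_le (h : IsSemi N) (x y : T) : N (x - y) ≤ N x + N y := by
  rw [sub_eq_add_neg]
  exact (h.add_le _ _).trans (by rw [h.neg])

theorem IsSemi.sum_le (h : IsSemi N) {ι : Type} (s : Finset ι) (f : ι → T) :
    N (∑ i ∈ s, f i) ≤ ∑ i ∈ s, N (f i) := by
  classical
  induction s using Finset.induction_on with
  | empty => simp [h.zero]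
  | insert a s ha ih =>
    rw [Finset.sum_insert ha, Finset.sum_insert ha]
    exact (h.add_le _ _).trans (by gcongr)

theorem IsSemi.le_add_sub (h : IsSemi N) (x y : T) : N x ≤ N y + N (x - y) := by
  have := h.add_le y (x - y)
  rwa [add_sub_cancel] at this

theorem IsSemi.one_le (h : IsSemi N) : N 1 ≤ 1 := by
  have h1 := h.cstar 1
  rw [star_one, mul_one] at h1
  by_contra hc
  push Not at hc
  nlinarith

theorem IsSemi.pow_le (h : IsSemi N) (x : T) (n : ℕ) : N (x ^ n) ≤ max 1 (N 1) * N x ^ n := by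
  induction n with
  | zero =>
    rw [pow_zero, pow_zero, mul_one]
    exact le_max_right _ _
  | succ n ih =>
    rw [pow_succ, pow_succ]
    refine (h.mul_le _ _).trans ?_
    have := h.nonneg x
    calc N (x ^ n) * N x ≤ (max 1 (N 1) * N x ^ n) * N x := by gcongr
      _ = _ := by ring

theorem IsSemi.pow_le' (h : IsSemi N) (x : T) (n : ℕ) : N (x ^ n) ≤ N x ^ n := by
  have h1 := h.pow_le x n
  rwa [max_eq_left h.one_le, one_mul] at h1

theorem IsSemi.comp {S : Type} [Ring S] [StarRing S] [Algebra ℂ S] (h : IsSemi N) (f : S →ₐ[ℂ] T)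
    (hf : ∀ x, f (star x) = star (f x)) : IsSemi (fun x => N (f x)) := by
  refine ⟨fun x => h.nonneg _, fun x y => ?_, fun c x => ?_, fun x y => ?_, fun x => ?_, fun x => ?_⟩
  · simp only [map_add]; exact h.add_le _ _
  · simp only [map_smul]; exact h.smul _ _
  · simp only [map_mul]; exact h.mul_le _ _
  · simp only [hf]; exact h.norm_star _
  · simp only [map_mul, hf]; exact h.cstar _

theorem IsSemi.max {N' : T → ℝ} (h : IsSemi N) (h' : IsSemi N') :
    IsSemi (fun x => Max.max (N x) (N' x)) := by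
  refine ⟨fun x => le_max_of_le_left (h.nonneg x), fun x y => ?_, fun c x => ?_, fun x y => ?_,
    fun x => ?_, fun x => ?_⟩
  · apply max_le
    · exact (h.add_le x y).trans (add_le_add (le_max_left _ _) (le_max_left _ _))
    · exact (h'.add_le x y).trans (add_le_add (le_max_right _ _) (le_max_right _ _))
  · simp only [h.smul, h'.smul]
    rw [mul_max_of_nonneg _ _ (norm_nonneg c)]
  · apply max_le
    · exact (h.mul_le x y).trans (mul_le_mul (le_max_left _ _) (le_max_left _ _) (h.nonneg _)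
        (le_max_of_le_left (h.nonneg x)))
    · exact (h'.mul_le x y).trans (mul_le_mul (le_max_right _ _) (le_max_right _ _) (h'.nonneg _)
        (le_max_of_le_left (h.nonneg x)))
  · simp only [h.norm_star, h'.norm_star]
  · simp only [h.cstar, h'.cstar]
    rcases le_total (N x) (N' x) with hx | hx
    · rw [max_eq_right hx, max_eq_right (pow_le_pow_left₀ (h.nonneg x) hx 2)]
    · rw [max_eq_left hx, max_eq_left (pow_le_pow_left₀ (h'.nonneg x) hx 2)]

theorem max_norm {N' : T → ℝ} (h : IsCStarNorm N) (h' : IsSemi N') :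
    IsCStarNorm (fun x => Max.max (N x) (N' x)) := by
  refine ((toSemi h).max h').toNorm fun x hx => h.eq_zero x ?_
  exact le_antisymm (by rw [← hx]; exact le_max_left _ _) (h.nonneg x)

end basic

section calg
variable {A : Type} [CStarAlgebra A]

theorem IsSemi.unitary_le {N : A → ℝ} (h : IsSemi N) (u : A) (hu : u ∈ unitary A) : N u ≤ 1 := by
  have h1 := h.cstar u
  rw [Unitary.star_mul_self_of_mem hu] at h1
  have h2 := h.one_le
  have h3 := h.nonneg u
  nlinarith

theorem IsSemi.sa_le {N : A → ℝ} (h : IsSemi N) (a : A) (ha : IsSelfAdjoint a) (h1 : ‖a‖ ≤ 1) :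
    N a ≤ 1 := by
  letI := CStarAlgebra.spectralOrder A
  letI := CStarAlgebra.spectralOrderedRing A
  set u := a + Complex.I • CFC.sqrt (1 - a ^ 2) with hu
  have hmem : u ∈ unitary A := IsSelfAdjoint.self_add_I_smul_cfcSqrt_sub_sq_mem_unitary a ha h1
  have hs : star u = a - Complex.I • CFC.sqrt (1 - a ^ 2) := by
    rw [hu, star_add, star_smul, ha.star_eq,
      (CFC.sqrt_nonneg (1 - a ^ 2 : A)).isSelfAdjoint.star_eq]
    simp [sub_eq_add_neg]
  have e : a = (1 / 2 : ℂ) • (u + star u) := by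
    rw [hs, hu]
    module
  rw [e, h.smul]
  have h2 := h.add_le u (star u)
  rw [h.norm_star] at h2
  have h3 := h.unitary_le u hmem
  have h4 : ‖(1 / 2 : ℂ)‖ = 1 / 2 := by norm_num
  rw [h4]
  linarith

theorem IsSemi.sa_le' {N : A → ℝ} (h : IsSemi N) (a : A) (ha : IsSelfAdjoint a) :
    N a ≤ ‖a‖ := by
  by_cases h0 : a = 0
  · rw [h0, h.zero, norm_zero]
  have hn : 0 < ‖a‖ := norm_pos_iff.2 h0
  have h1 := h.sa_le (((‖a‖⁻¹ : ℝ) : ℂ) • a) ?_ ?_
  · rw [h.smul, Complex.norm_real, Real.norm_of_nonneg (by positivity)] at h1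
    calc N a = ‖a‖ * (‖a‖⁻¹ * N a) := by field_simp
      _ ≤ ‖a‖ * 1 := by gcongr
      _ = ‖a‖ := mul_one _
  · rw [IsSelfAdjoint, star_smul, ha.star_eq]
    simp
  · rw [norm_smul, Complex.norm_real, Real.norm_of_nonneg (by positivity), inv_mul_cancel₀ hn.ne']

/-- C*-seminorms on a C*-algebra are dominated by the norm. -/
theorem IsSemi.le_norm {N : A → ℝ} (h : IsSemi N) (a : A) : N a ≤ ‖a‖ := by
  have h1 := h.sa_le' (star a * a) (IsSelfAdjoint.star_mul_self a)
  rw [h.cstar, CStarRing.norm_star_mul_self, ← sq] at h1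
  exact (pow_le_pow_iff_left₀ (h.nonneg a) (norm_nonneg a) two_ne_zero).1 h1

end calg

section tens
variable {A B A' B' : Type} [CStarAlgebra A] [CStarAlgebra B] [CStarAlgebra A'] [CStarAlgebra B']

/-- `φ ⊗ id` -/
noncomputable def tm (B : Type) [CStarAlgebra B] (φ : A →⋆ₐ[ℂ] A') : A ⊗[ℂ] B →ₐ[ℂ] A' ⊗[ℂ] B :=
  Algebra.TensorProduct.map φ.toAlgHom (AlgHom.id ℂ B)

@[simp] theorem tm_tmul (φ : A →⋆ₐ[ℂ] A') (a : A) (b : B) :
    tm B φ (a ⊗ₜ[ℂ] b) = φ a ⊗ₜ[ℂ] b := by
  simp [tm]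

theorem tm_star (φ : A →⋆ₐ[ℂ] A') (x : A ⊗[ℂ] B) : tm B φ (star x) = star (tm B φ x) := by
  induction x using TensorProduct.induction_on with
  | zero => simp
  | tmul a b => rw [TensorProduct.star_tmul, tm_tmul, tm_tmul, TensorProduct.star_tmul, map_star]
  | add x y hx hy => rw [star_add, map_add, map_add, star_add, hx, hy]

theorem semi_tm {N : A' ⊗[ℂ] B → ℝ} (h : IsSemi N) (φ : A →⋆ₐ[ℂ] A') :
    IsSemi (fun x => N (tm B φ x)) := h.comp (tm B φ) (tm_star φ)

theorem semi_left {N : A ⊗[ℂ] B → ℝ} (h : IsSemi N) (a : A) : N (a ⊗ₜ[ℂ] (1 : B)) ≤ ‖a‖ := by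
  have h1 := h.comp (Algebra.TensorProduct.includeLeft : A →ₐ[ℂ] A ⊗[ℂ] B) (fun x => by
    rw [Algebra.TensorProduct.includeLeft_apply, Algebra.TensorProduct.includeLeft_apply,
      TensorProduct.star_tmul, star_one])
  exact h1.le_norm a

theorem semi_right {N : A ⊗[ℂ] B → ℝ} (h : IsSemi N) (b : B) : N ((1 : A) ⊗ₜ[ℂ] b) ≤ ‖b‖ := by
  have h1 := h.comp (Algebra.TensorProduct.includeRight : B →ₐ[ℂ] A ⊗[ℂ] B) (fun x => by
    rw [Algebra.TensorProduct.includeRight_apply, Algebra.TensorProduct.includeRight_apply,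
      TensorProduct.star_tmul, star_one])
  exact h1.le_norm b

theorem semi_tmul {N : A ⊗[ℂ] B → ℝ} (h : IsSemi N) (a : A) (b : B) :
    N (a ⊗ₜ[ℂ] b) ≤ ‖a‖ * ‖b‖ := by
  have e : a ⊗ₜ[ℂ] b = (a ⊗ₜ[ℂ] (1 : B)) * ((1 : A) ⊗ₜ[ℂ] b) := by
    rw [Algebra.TensorProduct.tmul_mul_tmul, mul_one, one_mul]
  rw [e]
  refine (h.mul_le _ _).trans ?_
  exact mul_le_mul (semi_left h a) (semi_right h b) (h.nonneg _) (norm_nonneg _)

/-- uniform bound for all C*-seminorms -/
theorem semi_bdd (x : A ⊗[ℂ] B) : ∃ C : ℝ, ∀ N : A ⊗[ℂ] B → ℝ, IsSemi N → N x ≤ C := by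
  induction x using TensorProduct.induction_on with
  | zero => exact ⟨0, fun N h => h.zero.le⟩
  | tmul a b => exact ⟨‖a‖ * ‖b‖, fun N h => semi_tmul h a b⟩
  | add x y hx hy =>
    obtain ⟨C, hC⟩ := hx
    obtain ⟨D, hD⟩ := hy
    exact ⟨C + D, fun N h => (h.add_le x y).trans (add_le_add (hC N h) (hD N h))⟩

end tens

end Pool.Agent.Helper22K.FN
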