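import Pool.Agent.Helper22K.FN.Main
import Pool.Agent.Helper965.CN.Card
set_option autoImplicit false
set_option linter.unusedSectionVars false
open scoped TensorProduct ComplexOrder BigOperators InnerProductSpace CStarAlgebra Cardinal

namespace Pool.Agent.Helper22K.FN
open Pool.Agent.Helper965.CN

theorem isFull_separable {A : Type} [CStarAlgebra A] {u : ℕ → A} (hA : IsFull A u) :
    TopologicalSpace.SeparableSpace A := by
  rw [← TopologicalSpace.isSeparable_univ_iff]
  have h1 : (StarAlgebra.adjoin ℂ (Set.range u)).topologicalClosure = ⊤ := by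
    apply hA.generates _ (StarSubalgebra.isClosed_topologicalClosure _)
    intro n
    exact StarSubalgebra.le_topologicalClosure _ (StarAlgebra.subset_adjoin ℂ _ ⟨n, rfl⟩)
  have h2 : closure ((StarAlgebra.adjoin ℂ (Set.range u) : StarSubalgebra ℂ A) : Set A) = Set.univ := by
    rw [← StarSubalgebra.topologicalClosure_coe, h1]
    rfl
  rw [← h2, TopologicalSpace.isSeparable_closure]
  have h3 : Set.range u ∪ star (Set.range u) = Set.range (Sum.elim u (fun n => star (u n))) := by
    rw [Set.Sum.elim_range]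
    congr 1
    ext x
    simp only [Set.mem_star, Set.mem_range]
    constructor
    · rintro ⟨n, hn⟩
      exact ⟨n, by rw [hn, star_star]⟩
    · rintro ⟨n, hn⟩
      exact ⟨n, by rw [← hn, star_star]⟩
  have h4 : ((StarAlgebra.adjoin ℂ (Set.range u) : StarSubalgebra ℂ A) : Set A) =
      (Submodule.span ℂ ((Submonoid.closure (Set.range (Sum.elim u (fun n => star (u n))))
        : Submonoid A) : Set A) : Set A) := by
    rw [← h3, ← Algebra.adjoin_eq_span, ← StarAlgebra.adjoin_toSubalgebra]
    rfl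
  rw [h4]
  apply TopologicalSpace.IsSeparable.span
  apply Set.Countable.isSeparable
  rw [← FreeMonoid.mrange_lift, MonoidHom.coe_mrange]
  exact Set.countable_range _

section upper
variable {A B : Type} [CStarAlgebra A] [CStarAlgebra B]

/-- finite sums of products of members of two sequences -/
noncomputable def ls (a : ℕ → A) (b : ℕ → B) (l : List (ℕ × ℕ)) : A ⊗[ℂ] B :=
  (l.map fun i => a i.1 ⊗ₜ[ℂ] b i.2).sum

theorem ls_dense (a : ℕ → A) (b : ℕ → B) (ha : DenseRange a) (hb : DenseRange b) (t : A ⊗[ℂ] B) :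
    ∀ ε : ℝ, 0 < ε → ∃ l, ∀ N : A ⊗[ℂ] B → ℝ, IsSemi N → N (t - ls a b l) ≤ ε := by
  induction t using TensorProduct.induction_on with
  | zero =>
    intro ε hε
    refine ⟨[], fun N h => ?_⟩
    simp [ls, h.zero, hε.le]
  | tmul x y =>
    intro ε hε
    have hy : 0 < ‖y‖ + 1 := by positivity
    obtain ⟨i, hi⟩ := ha.exists_dist_lt x (ε := ε / (2 * (‖y‖ + 1))) (by positivity)
    have hai : 0 < ‖a i‖ + 1 := by positivity
    obtain ⟨j, hj⟩ := hb.exists_dist_lt y (ε := ε / (2 * (‖a i‖ + 1))) (by positivity)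
    refine ⟨[(i, j)], fun N h => ?_⟩
    have e : x ⊗ₜ[ℂ] y - ls a b [(i, j)] = (x - a i) ⊗ₜ[ℂ] y + (a i) ⊗ₜ[ℂ] (y - b j) := by
      simp only [ls, List.map_cons, List.map_nil, List.sum_cons, List.sum_nil, add_zero]
      rw [TensorProduct.sub_tmul, TensorProduct.tmul_sub]
      abel
    rw [e]
    have h1 := semi_tmul h (x - a i) y
    have h2 := semi_tmul h (a i) (y - b j)
    rw [dist_eq_norm] at hi hj
    have h3 : ‖x - a i‖ * ‖y‖ ≤ ε / 2 := by
      calc ‖x - a i‖ * ‖y‖ ≤ ε / (2 * (‖y‖ + 1)) * (‖y‖ + 1) :=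
            mul_le_mul hi.le (by linarith) (norm_nonneg _) (by positivity)
        _ = ε / 2 := by field_simp
    have h4 : ‖a i‖ * ‖y - b j‖ ≤ ε / 2 := by
      calc ‖a i‖ * ‖y - b j‖ ≤ (‖a i‖ + 1) * (ε / (2 * (‖a i‖ + 1))) :=
            mul_le_mul (by linarith) hj.le (norm_nonneg _) (by positivity)
        _ = ε / 2 := by field_simp
    have h5 := h.add_le ((x - a i) ⊗ₜ[ℂ] y) ((a i) ⊗ₜ[ℂ] (y - b j))
    linarith
  | add s t hs ht =>
    intro ε hε
    obtain ⟨l, hl⟩ := hs (ε / 2) (by positivity)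
    obtain ⟨m, hm⟩ := ht (ε / 2) (by positivity)
    refine ⟨l ++ m, fun N h => ?_⟩
    have e : s + t - ls a b (l ++ m) = (s - ls a b l) + (t - ls a b m) := by
      simp only [ls, List.map_append, List.sum_append]
      abel
    rw [e]
    have h1 := h.add_le (s - ls a b l) (t - ls a b m)
    have h2 := hl N h
    have h3 := hm N h
    linarith

theorem card_le [TopologicalSpace.SeparableSpace A] [TopologicalSpace.SeparableSpace B] :
    #{N : A ⊗[ℂ] B → ℝ // IsCStarNorm N} ≤ 2 ^ ℵ₀ := by
  have h1 : Function.Injective (fun (N : {N : A ⊗[ℂ] B → ℝ // IsCStarNorm N})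
      (l : List (ℕ × ℕ)) => N.1 (ls (TopologicalSpace.denseSeq A) (TopologicalSpace.denseSeq B) l)) := by
    intro N N' h
    apply Subtype.ext
    funext t
    have key : ∀ N N' : {N : A ⊗[ℂ] B → ℝ // IsCStarNorm N},
        (∀ l, N.1 (ls (TopologicalSpace.denseSeq A) (TopologicalSpace.denseSeq B) l) =
          N'.1 (ls (TopologicalSpace.denseSeq A) (TopologicalSpace.denseSeq B) l)) →
        N.1 t ≤ N'.1 t := by
      intro N N' h
      by_contra hc
      push Not at hc
      obtain ⟨l, hl⟩ := ls_dense (TopologicalSpace.denseSeq A) (TopologicalSpace.denseSeq B)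
        (TopologicalSpace.denseRange_denseSeq A) (TopologicalSpace.denseRange_denseSeq B) t
        ((N.1 t - N'.1 t) / 4) (by linarith)
      have h1 := hl N.1 (toSemi N.2)
      have h2 := hl N'.1 (toSemi N'.2)
      have h3 := (toSemi N.2).le_add_sub t
        (ls (TopologicalSpace.denseSeq A) (TopologicalSpace.denseSeq B) l)
      have h4 := (toSemi N'.2).le_add_sub
        (ls (TopologicalSpace.denseSeq A) (TopologicalSpace.denseSeq B) l) t
      rw [← neg_sub, (toSemi N'.2).neg] at h4
      have h5 := h l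
      linarith
    exact le_antisymm (key N N' fun l => congrFun h l) (key N' N fun l => (congrFun h l).symm)
  refine (Cardinal.mk_le_of_injective h1).trans ?_
  rw [Cardinal.mk_arrow, Cardinal.lift_id, Cardinal.lift_id, Cardinal.mk_real,
    Cardinal.mk_eq_aleph0 (List (ℕ × ℕ)), Cardinal.continuum_power_aleph0, Cardinal.two_power_aleph0]

end upper

end Pool.Agent.Helper22K.FN
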