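import Pool.Agent.Helper22K.FN.Basic
set_option autoImplicit false
open scoped TensorProduct ComplexOrder BigOperators

namespace Pool.Agent.Helper22K.FN
open Pool.Agent.Helper965.CN

theorem tmul_ne {A B : Type} [AddCommGroup A] [Module ℂ A] [AddCommGroup B] [Module ℂ B]
    {a : A} {b : B} (ha : a ≠ 0) (hb : b ≠ 0) : a ⊗ₜ[ℂ] b ≠ 0 := by
  intro h
  apply ha
  rw [← Module.forall_dual_apply_eq_zero_iff ℂ]
  intro f
  have h1 := congrArg (fun z => TensorProduct.lid ℂ B (TensorProduct.map f LinearMap.id z)) h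
  simp only [TensorProduct.map_tmul, LinearMap.id_apply, TensorProduct.lid_tmul, map_zero] at h1
  exact (smul_eq_zero.1 h1).resolve_right hb

section cut
variable {A : Type} [CStarAlgebra A]

theorem cut (a : A) (ha : IsSelfAdjoint a) (h01 : spectrum ℝ a ⊆ Set.Icc 0 1)
    (h1 : (1 : ℝ) ∈ spectrum ℝ a) {r : ℝ} (hr0 : 0 < r) (hr1 : r < 1) :
    ∃ F : A, F ≠ 0 ∧ ∀ n : ℕ, ∃ H : A, F = a ^ n * H ∧ ‖H‖ ≤ (r⁻¹) ^ n := by
  have hA : Nontrivial A := by
    by_contra hc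
    rw [not_nontrivial_iff_subsingleton] at hc
    rw [spectrum.of_subsingleton] at h1
    exact h1
  refine ⟨cfc (fun t : ℝ => max (t - r) 0) a, ?_, fun n => ?_⟩
  · intro h0
    have h2 := cfc_map_spectrum (R := ℝ) (fun t : ℝ => max (t - r) 0) a ha (by fun_prop)
    rw [h0, spectrum.zero_eq] at h2
    have h3 : (1 - r) ∈ (fun t : ℝ => max (t - r) 0) '' spectrum ℝ a :=
      ⟨1, h1, max_eq_left (by linarith)⟩
    rw [← h2] at h3
    have : (1 : ℝ) - r = 0 := h3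
    linarith
  · have hpos : ∀ t : ℝ, max t r ≠ 0 := fun t => (lt_of_lt_of_le hr0 (le_max_right _ _)).ne'
    have hc1 : Continuous (fun t : ℝ => max (t - r) 0 * ((max t r)⁻¹) ^ n) := by
      have : Continuous (fun t : ℝ => (max t r)⁻¹) := Continuous.inv₀ (by fun_prop) hpos
      fun_prop
    refine ⟨cfc (fun t : ℝ => max (t - r) 0 * ((max t r)⁻¹) ^ n) a, ?_, ?_⟩
    · have e1 : a ^ n = cfc (fun t : ℝ => t ^ n) a := by
        rw [cfc_pow_id (R := ℝ) a n ha]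
      rw [e1, ← cfc_mul (fun t : ℝ => t ^ n) (fun t : ℝ => max (t - r) 0 * ((max t r)⁻¹) ^ n) a
        (by fun_prop) hc1.continuousOn]
      apply cfc_congr
      intro t _
      show max (t - r) 0 = t ^ n * (max (t - r) 0 * ((max t r)⁻¹) ^ n)
      rcases le_total t r with h | h
      · rw [max_eq_right (by linarith : t - r ≤ 0)]; ring
      · rw [max_eq_left (by linarith : 0 ≤ t - r), max_eq_left h, mul_left_comm, ← mul_pow,
          mul_inv_cancel₀ (lt_of_lt_of_le hr0 h).ne', one_pow, mul_one]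
    · apply norm_cfc_le (by positivity)
      intro t ht
      have h2 := h01 ht
      have h3 : 0 ≤ max (t - r) 0 := le_max_right _ _
      have h4 : max (t - r) 0 ≤ 1 := max_le (by linarith [h2.2]) zero_le_one
      have h5 : 0 ≤ (max t r)⁻¹ := inv_nonneg.2 (hr0.le.trans (le_max_right _ _))
      have h6 : (max t r)⁻¹ ≤ r⁻¹ := inv_anti₀ hr0 (le_max_right _ _)
      rw [Real.norm_of_nonneg (by positivity)]
      calc max (t - r) 0 * ((max t r)⁻¹) ^ n ≤ 1 * (r⁻¹) ^ n := by gcongr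
        _ = _ := one_mul _

theorem exists_normed (x : A) (hx : x ≠ 0) :
    ∃ a : A, IsSelfAdjoint a ∧ spectrum ℝ a ⊆ Set.Icc 0 1 ∧ (1 : ℝ) ∈ spectrum ℝ a ∧
      star x * x = ((‖x‖ ^ 2 : ℝ) : ℂ) • a := by
  let := CStarAlgebra.spectralOrder A
  have := CStarAlgebra.spectralOrderedRing A
  have hA : Nontrivial A := ⟨x, 0, hx⟩
  have hn : 0 < ‖x‖ := norm_pos_iff.2 hx
  set a : A := (‖x‖ ^ 2)⁻¹ • (star x * x) with ha
  have ha0 : 0 ≤ a := smul_nonneg (by positivity) (star_mul_self_nonneg x)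
  have hna : ‖a‖ = 1 := by
    rw [ha, norm_smul, CStarRing.norm_star_mul_self, Real.norm_of_nonneg (by positivity), ← sq]
    exact inv_mul_cancel₀ (by positivity)
  refine ⟨a, IsSelfAdjoint.of_nonneg ha0, fun t ht => ⟨?_, ?_⟩, ?_, ?_⟩
  · exact spectrum_nonneg_of_nonneg ha0 ht
  · have h1 := spectrum.norm_le_norm_of_mem ht
    rw [hna] at h1
    exact (le_abs_self t).trans h1
  · have h1 := CStarAlgebra.norm_mem_spectrum_of_nonneg ha0
    rwa [hna] at h1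
  · rw [ha, Complex.coe_smul, smul_smul, mul_inv_cancel₀ (by positivity), one_smul]

end cut

section cross
variable {A B : Type} [CStarAlgebra A] [CStarAlgebra B]

theorem cross_aux {N : A ⊗[ℂ] B → ℝ} (h : IsCStarNorm N) (a : A) (b : B)
    (ha : IsSelfAdjoint a) (ha01 : spectrum ℝ a ⊆ Set.Icc 0 1) (ha1 : (1 : ℝ) ∈ spectrum ℝ a)
    (hb : IsSelfAdjoint b) (hb01 : spectrum ℝ b ⊆ Set.Icc 0 1) (hb1 : (1 : ℝ) ∈ spectrum ℝ b) :
    1 ≤ N (a ⊗ₜ[ℂ] b) := by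
  by_contra hc
  push Not at hc
  set c := N (a ⊗ₜ[ℂ] b) with hcd
  have hc0 : 0 ≤ c := h.nonneg _
  set r : ℝ := (1 + c) / 2 with hr
  have hr0 : 0 < r := by rw [hr]; linarith
  have hr1 : r < 1 := by rw [hr]; linarith
  have hr2 : c < r ^ 2 := by rw [hr]; nlinarith [mul_pos (sub_pos.2 hc) (sub_pos.2 hc)]
  obtain ⟨F, hF, hF'⟩ := cut a ha ha01 ha1 hr0 hr1
  obtain ⟨G, hG, hG'⟩ := cut b hb hb01 hb1 hr0 hr1
  have hs := toSemi h
  have key : ∀ n : ℕ, N (F ⊗ₜ[ℂ] G) ≤ (c / r ^ 2) ^ n := by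
    intro n
    obtain ⟨H, e1, h1⟩ := hF' n
    obtain ⟨K, e2, h2⟩ := hG' n
    have e3 : F ⊗ₜ[ℂ] G = (a ⊗ₜ[ℂ] b) ^ n * (H ⊗ₜ[ℂ] K) := by
      rw [Algebra.TensorProduct.tmul_pow, Algebra.TensorProduct.tmul_mul_tmul, ← e1, ← e2]
    rw [e3]
    refine (h.mul_le _ _).trans ?_
    have h3 := hs.pow_le' (a ⊗ₜ[ℂ] b) n
    have h4 := semi_tmul hs H K
    calc N ((a ⊗ₜ[ℂ] b) ^ n) * N (H ⊗ₜ[ℂ] K) ≤ c ^ n * ((r⁻¹) ^ n * (r⁻¹) ^ n) := by
          apply mul_le_mul h3 (h4.trans ?_) (h.nonneg _) (by positivity)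
          exact mul_le_mul h1 h2 (norm_nonneg _) (by positivity)
      _ = _ := by rw [← mul_pow, ← mul_pow, div_eq_mul_inv, sq, mul_inv]
  have hlt : c / r ^ 2 < 1 := by rw [div_lt_one (by positivity)]; exact hr2
  have h0 : N (F ⊗ₜ[ℂ] G) ≤ 0 :=
    ge_of_tendsto' (tendsto_pow_atTop_nhds_zero_of_lt_one (by positivity) hlt) key
  exact tmul_ne hF hG (h.eq_zero _ (le_antisymm h0 (h.nonneg _)))

/-- every C*-norm is a cross norm -/
theorem cross {N : A ⊗[ℂ] B → ℝ} (h : IsCStarNorm N) (x : A) (z : B) :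
    ‖x‖ * ‖z‖ ≤ N (x ⊗ₜ[ℂ] z) := by
  by_cases hx : x = 0
  · rw [hx, norm_zero, zero_mul]; exact h.nonneg _
  by_cases hz : z = 0
  · rw [hz, norm_zero, mul_zero]; exact h.nonneg _
  obtain ⟨a, ha, ha01, ha1, ea⟩ := exists_normed x hx
  obtain ⟨b, hb, hb01, hb1, eb⟩ := exists_normed z hz
  have h1 := cross_aux h a b ha ha01 ha1 hb hb01 hb1
  have h2 := h.cstar (x ⊗ₜ[ℂ] z)
  have h3 : N (star (x ⊗ₜ[ℂ] z) * (x ⊗ₜ[ℂ] z)) = (‖x‖ * ‖z‖) ^ 2 * N (a ⊗ₜ[ℂ] b) := by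
    rw [TensorProduct.star_tmul, Algebra.TensorProduct.tmul_mul_tmul, ea, eb,
      TensorProduct.smul_tmul_smul, h.smul, ← Complex.ofReal_mul, Complex.norm_real,
      Real.norm_of_nonneg (by positivity), mul_pow]
  rw [h3] at h2
  have h4 : (‖x‖ * ‖z‖) ^ 2 ≤ N (x ⊗ₜ[ℂ] z) ^ 2 := by
    rw [← h2]
    exact le_mul_of_one_le_right (sq_nonneg _) h1
  exact (pow_le_pow_iff_left₀ (by positivity) (h.nonneg _) two_ne_zero).1 h4

end cross

end Pool.Agent.Helper22K.FN
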