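import Pool.Agent.Helper965.CN.Defs
set_option autoImplicit false

namespace Pool.Agent.Helper22K.FN

/-- `A` with the sequence `u` of unitaries is the full C*-algebra of the free group on countably
many generators: it is the universal unital C*-algebra generated by a sequence of unitaries. -/
structure IsFull (A : Type) [CStarAlgebra A] (u : ℕ → A) : Prop where
  unitary : ∀ n, u n ∈ unitary A
  generates : ∀ S : StarSubalgebra ℂ A, IsClosed (S : Set A) → (∀ n, u n ∈ S) → S = ⊤
  lift : ∀ (D : Type) [CStarAlgebra D] (v : ℕ → D), (∀ n, v n ∈ _root_.unitary D) →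
    ∃ φ : A →⋆ₐ[ℂ] D, ∀ n, φ (u n) = v n

end Pool.Agent.Helper22K.FN
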