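import Pool.Agent.Helper22K.FN.Cross
set_option autoImplicit false
open scoped TensorProduct ComplexOrder BigOperators

namespace Pool.Agent.Helper22K.FN
open Pool.Agent.Helper965.CN

/-- excisable functionals -/
def Exc {A : Type} [CStarAlgebra A] (φ : A →ₗ[ℂ] ℂ) : Prop :=
  ∀ (s : Finset A) (ε : ℝ), 0 < ε → ∃ a : A, ‖a‖ = 1 ∧
    ∀ b ∈ s, ‖star a * b * a - φ b • (star a * a)‖ ≤ ε

section
variable {A B : Type} [CStarAlgebra A] [CStarAlgebra B]

/-- the slice map `φ ⊗ id` -/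
noncomputable def sl (B : Type) [CStarAlgebra B] (φ : A →ₗ[ℂ] ℂ) : A ⊗[ℂ] B →ₗ[ℂ] B :=
  (TensorProduct.lid ℂ B).toLinearMap ∘ₗ TensorProduct.map φ LinearMap.id

@[simp] theorem sl_tmul (φ : A →ₗ[ℂ] ℂ) (a : A) (b : B) : sl B φ (a ⊗ₜ[ℂ] b) = φ a • b := by
  simp [sl]

theorem slice_le {φ : A →ₗ[ℂ] ℂ} (hφ : Exc φ) {N : A ⊗[ℂ] B → ℝ} (h : IsCStarNorm N)
    (y : A ⊗[ℂ] B) : ‖sl B φ y‖ ≤ N y := by
  classical
  obtain ⟨S, hS⟩ := TensorProduct.exists_finset y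
  have hs := toSemi h
  set C : ℝ := ∑ i ∈ S, ‖i.2‖ with hC
  have hC0 : 0 ≤ C := Finset.sum_nonneg fun i _ => norm_nonneg _
  have key : ∀ ε : ℝ, 0 < ε → ‖sl B φ y‖ ≤ N y + ε * C := by
    intro ε hε
    obtain ⟨a, ha, hab⟩ := hφ (S.image Prod.fst) ε hε
    set w : A ⊗[ℂ] B := (star a * a) ⊗ₜ[ℂ] (sl B φ y) with hw
    set v : A ⊗[ℂ] B := star (a ⊗ₜ[ℂ] (1 : B)) * y * (a ⊗ₜ[ℂ] (1 : B)) with hv
    have h1 : ‖sl B φ y‖ ≤ N w := by
      have := cross h (star a * a) (sl B φ y)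
      rwa [CStarRing.norm_star_mul_self, ha, one_mul, one_mul] at this
    have h2 : N v ≤ N y := by
      have h3 := semi_left hs a
      rw [ha] at h3
      calc N v ≤ N (star (a ⊗ₜ[ℂ] (1 : B)) * y) * N (a ⊗ₜ[ℂ] (1 : B)) := h.mul_le _ _
        _ ≤ (N (star (a ⊗ₜ[ℂ] (1 : B))) * N y) * N (a ⊗ₜ[ℂ] (1 : B)) :=
            mul_le_mul_of_nonneg_right (h.mul_le _ _) (h.nonneg _)
        _ = N (a ⊗ₜ[ℂ] (1 : B)) * N (a ⊗ₜ[ℂ] (1 : B)) * N y := by rw [h.norm_star]; ring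
        _ ≤ 1 * 1 * N y := by
            have := h.nonneg y
            have := h.nonneg (a ⊗ₜ[ℂ] (1 : B))
            gcongr
        _ = N y := by ring
    have h3 : v - w = ∑ i ∈ S, (star a * i.1 * a - φ i.1 • (star a * a)) ⊗ₜ[ℂ] i.2 := by
      rw [hv, hw, hS, map_sum, Finset.mul_sum, Finset.sum_mul, TensorProduct.tmul_sum,
        ← Finset.sum_sub_distrib]
      refine Finset.sum_congr rfl fun i _ => ?_
      rw [TensorProduct.star_tmul, star_one, Algebra.TensorProduct.tmul_mul_tmul,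
        Algebra.TensorProduct.tmul_mul_tmul, one_mul, mul_one, sl_tmul, TensorProduct.tmul_smul,
        TensorProduct.sub_tmul, ← TensorProduct.smul_tmul']
    have h4 : N (v - w) ≤ ε * C := by
      rw [h3, hC, Finset.mul_sum]
      refine (hs.sum_le _ _).trans (Finset.sum_le_sum fun i hi => ?_)
      refine (semi_tmul hs _ _).trans ?_
      exact mul_le_mul_of_nonneg_right (hab _ (Finset.mem_image_of_mem _ hi)) (norm_nonneg _)
    have h5 := hs.sub_le v (v - w)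
    rw [sub_sub_cancel] at h5
    linarith
  by_contra hc
  push Not at hc
  have h6 := key ((‖sl B φ y‖ - N y) / (2 * (C + 1))) (div_pos (sub_pos.2 hc) (by positivity))
  have h7 : (‖sl B φ y‖ - N y) / (2 * (C + 1)) * C ≤ (‖sl B φ y‖ - N y) / 2 := by
    rw [div_mul_eq_mul_div, div_le_div_iff₀ (by positivity) (by positivity)]
    nlinarith
  linarith

end

end Pool.Agent.Helper22K.FN
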