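import Pool.Agent.Helper22K.FN.Defs
import Pool.Agent.Helper22K.FN.Slice
set_option autoImplicit false
set_option linter.unusedSectionVars false
open scoped TensorProduct ComplexOrder BigOperators InnerProductSpace CStarAlgebra

namespace Pool.Agent.Helper22K.FN
open Pool.Agent.Helper965.CN

section words
variable {A : Type} [CStarAlgebra A] {u : ℕ → A}

/-- the *-algebra generated by the first `K` generators -/
noncomputable def W (u : ℕ → A) (K : ℕ) : StarSubalgebra ℂ A :=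
  StarAlgebra.adjoin ℂ (u '' {j | j < K})

theorem W_mono {K L : ℕ} (h : K ≤ L) : W u K ≤ W u L :=
  StarAlgebra.adjoin_mono (Set.image_mono fun _ hj => lt_of_lt_of_le hj h)

theorem u_mem_W {j K : ℕ} (h : j < K) : u j ∈ W u K :=
  StarAlgebra.subset_adjoin ℂ _ ⟨j, h, rfl⟩

theorem exists_W {b : A} (hb : b ∈ StarAlgebra.adjoin ℂ (Set.range u)) : ∃ K, b ∈ W u K := by
  induction hb using StarAlgebra.adjoin_induction with
  | mem x hx =>
    obtain ⟨j, rfl⟩ := hx
    exact ⟨j + 1, u_mem_W (Nat.lt_succ_self j)⟩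
  | algebraMap r => exact ⟨0, algebraMap_mem _ r⟩
  | add x y _ _ hx hy =>
    obtain ⟨K, hK⟩ := hx
    obtain ⟨L, hL⟩ := hy
    exact ⟨max K L, add_mem (W_mono (le_max_left _ _) hK) (W_mono (le_max_right _ _) hL)⟩
  | mul x y _ _ hx hy =>
    obtain ⟨K, hK⟩ := hx
    obtain ⟨L, hL⟩ := hy
    exact ⟨max K L, mul_mem (W_mono (le_max_left _ _) hK) (W_mono (le_max_right _ _) hL)⟩
  | star x _ hx =>
    obtain ⟨K, hK⟩ := hx
    exact ⟨K, star_mem hK⟩

theorem approx (hA : IsFull A u) (b : A) {ε : ℝ} (hε : 0 < ε) :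
    ∃ K, ∃ c ∈ W u K, ‖b - c‖ ≤ ε := by
  have h1 : (StarAlgebra.adjoin ℂ (Set.range u)).topologicalClosure = ⊤ := by
    apply hA.generates _ (StarSubalgebra.isClosed_topologicalClosure _)
    intro n
    exact StarSubalgebra.le_topologicalClosure _ (StarAlgebra.subset_adjoin ℂ _ ⟨n, rfl⟩)
  have h2 : b ∈ (StarAlgebra.adjoin ℂ (Set.range u)).topologicalClosure := by
    rw [h1]; trivial
  have h3 : b ∈ closure ((StarAlgebra.adjoin ℂ (Set.range u) : StarSubalgebra ℂ A) : Set A) := h2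
  obtain ⟨c, hc, hbc⟩ := Metric.mem_closure_iff.1 h3 ε hε
  obtain ⟨K, hK⟩ := exists_W hc
  refine ⟨K, c, hK, ?_⟩
  rw [dist_eq_norm] at hbc
  exact hbc.le

theorem agree {D : Type} [CStarAlgebra D] (ρ π : A →⋆ₐ[ℂ] D) {K : ℕ}
    (h : ∀ j, j < K → ρ (u j) = π (u j)) {b : A} (hb : b ∈ W u K) : ρ b = π b := by
  have h1 : W u K ≤ StarAlgHom.equalizer ρ π := by
    apply StarAlgHom.adjoin_le_equalizer
    rintro _ ⟨j, hj, rfl⟩
    exact h j hj
  exact h1 hb

theorem hom_ext (hA : IsFull A u) {D : Type} [CStarAlgebra D] (ρ π : A →⋆ₐ[ℂ] D)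
    (h : ∀ j, ρ (u j) = π (u j)) : ρ = π := by
  ext b
  have h1 : StarAlgHom.equalizer ρ π = ⊤ := by
    apply hA.generates
    · have h2 : ((StarAlgHom.equalizer ρ π : StarSubalgebra ℂ A) : Set A) = {x | ρ x = π x} := rfl
      rw [h2]
      exact isClosed_eq (map_continuous ρ) (map_continuous π)
    · exact h
  have h2 : b ∈ StarAlgHom.equalizer ρ π := by rw [h1]; trivial
  exact h2

end words

section rank
variable {H : Type} [NormedAddCommGroup H] [InnerProductSpace ℂ H] [CompleteSpace H]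

/-- rank one projection -/
noncomputable def P (ξ : H) : H →L[ℂ] H := (innerSL ℂ ξ).smulRight ξ

theorem P_apply (ξ x : H) : P ξ x = inner ℂ ξ x • ξ := rfl

theorem P_star (ξ : H) : star (P ξ) = P ξ := by
  rw [ContinuousLinearMap.star_eq_adjoint]
  symm
  rw [ContinuousLinearMap.eq_adjoint_iff]
  intro x y
  rw [P_apply, P_apply, inner_smul_left, inner_smul_right, inner_conj_symm]
  ring

theorem P_conj (ξ : H) (T : H →L[ℂ] H) : P ξ * T * P ξ = inner ℂ ξ (T ξ) • P ξ := by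
  ext x
  show P ξ (T (P ξ x)) = inner ℂ ξ (T ξ) • P ξ x
  rw [P_apply, P_apply, map_smul, inner_smul_right, smul_smul, mul_comm]

theorem P_sq (ξ : H) (hξ : ‖ξ‖ = 1) : P ξ * P ξ = P ξ := by
  have h := P_conj ξ 1
  rw [mul_one] at h
  rw [h]
  have h1 : inner ℂ ξ ((1 : H →L[ℂ] H) ξ) = 1 := by
    show inner ℂ ξ ξ = (1 : ℂ)
    rw [inner_self_eq_norm_sq_to_K, hξ]
    simp
  rw [h1, one_smul]

theorem P_norm (ξ : H) (hξ : ‖ξ‖ = 1) : 1 ≤ ‖P ξ‖ := by
  have h := (P ξ).le_opNorm ξ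
  rw [P_apply, inner_self_eq_norm_sq_to_K, hξ] at h
  simpa [hξ] using h

theorem refl_unitary (ξ : H) (hξ : ‖ξ‖ = 1) : (1 - (2 : ℂ) • P ξ : H →L[ℂ] H) ∈ unitary (H →L[ℂ] H) := by
  have hs : star (1 - (2 : ℂ) • P ξ : H →L[ℂ] H) = 1 - (2 : ℂ) • P ξ := by
    rw [star_sub, star_one, star_smul, P_star]
    simp
  have h2 : (1 - (2 : ℂ) • P ξ : H →L[ℂ] H) * (1 - (2 : ℂ) • P ξ) = 1 := by
    rw [sub_mul, mul_sub, mul_sub, one_mul, one_mul, mul_one, smul_mul_smul_comm, P_sq ξ hξ]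
    module
  rw [Unitary.mem_iff, hs]
  exact ⟨h2, h2⟩

end rank


section exc
variable {A : Type} [CStarAlgebra A] {u : ℕ → A}
variable {H : Type} [NormedAddCommGroup H] [InnerProductSpace ℂ H] [CompleteSpace H]

/-- vector functional -/
noncomputable def vecF (π : A →⋆ₐ[ℂ] (H →L[ℂ] H)) (ξ : H) : A →ₗ[ℂ] ℂ where
  toFun a := inner ℂ ξ (π a ξ)
  map_add' a b := by
    show inner ℂ ξ (π (a + b) ξ) = _
    rw [map_add]
    exact inner_add_right _ _ _
  map_smul' c a := by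
    show inner ℂ ξ (π (c • a) ξ) = _
    rw [map_smul]
    exact inner_smul_right _ _ _

theorem vecF_apply (π : A →⋆ₐ[ℂ] (H →L[ℂ] H)) (ξ : H) (a : A) :
    vecF π ξ a = inner ℂ ξ (π a ξ) := rfl

theorem vecF_le (π : A →⋆ₐ[ℂ] (H →L[ℂ] H)) {ξ : H} (hξ : ‖ξ‖ = 1) (a : A) :
    ‖vecF π ξ a‖ ≤ ‖a‖ := by
  rw [vecF_apply]
  refine (norm_inner_le_norm _ _).trans ?_
  rw [hξ, one_mul]
  refine ((π a).le_opNorm ξ).trans ?_
  rw [hξ, mul_one]
  exact NonUnitalStarAlgHom.norm_apply_le π a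

theorem small (s : A) (hs : ∃ y, s = star y * y) {η : ℝ} (hη : 0 < η) :
    ∃ F : A, IsSelfAdjoint F ∧ ‖F‖ ≤ 1 ∧ ‖F * s * F‖ ≤ η ∧
      ∀ (D : Type) [CStarAlgebra D] (ρ : A →⋆ₐ[ℂ] D), ρ s = 0 → ρ F = 1 := by
  obtain ⟨y, hy⟩ := hs
  let := CStarAlgebra.spectralOrder A
  have := CStarAlgebra.spectralOrderedRing A
  have hs0 : 0 ≤ s := by rw [hy]; exact star_mul_self_nonneg y
  have hsa : IsSelfAdjoint s := IsSelfAdjoint.of_nonneg hs0
  have hc : Continuous (fun t : ℝ => max (1 - t / η) 0) := by fun_prop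
  refine ⟨cfc (fun t : ℝ => max (1 - t / η) 0) s, cfc_predicate _ s, ?_, ?_, ?_⟩
  · apply norm_cfc_le zero_le_one
    intro t ht
    have h0 : 0 ≤ t := spectrum_nonneg_of_nonneg hs0 ht
    rw [Real.norm_of_nonneg (le_max_right _ _)]
    exact max_le (by have := div_nonneg h0 hη.le; linarith) zero_le_one
  · have e : cfc (fun t : ℝ => max (1 - t / η) 0) s * s * cfc (fun t : ℝ => max (1 - t / η) 0) s =
        cfc (fun t : ℝ => max (1 - t / η) 0 * t * max (1 - t / η) 0) s := by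
      rw [cfc_mul (fun t : ℝ => max (1 - t / η) 0 * t) (fun t : ℝ => max (1 - t / η) 0) s
        (by fun_prop) (by fun_prop), cfc_mul (fun t : ℝ => max (1 - t / η) 0) (fun t : ℝ => t) s
        (by fun_prop) (by fun_prop), cfc_id' ℝ s]
    rw [e]
    apply norm_cfc_le hη.le
    intro t ht
    have h0 : 0 ≤ t := spectrum_nonneg_of_nonneg hs0 ht
    have h1 : 0 ≤ max (1 - t / η) 0 := le_max_right _ _
    rw [Real.norm_of_nonneg (by positivity)]
    rcases le_total t η with h | h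
    · have h2 : max (1 - t / η) 0 ≤ 1 :=
        max_le (by have := div_nonneg h0 hη.le; linarith) zero_le_one
      calc max (1 - t / η) 0 * t * max (1 - t / η) 0 ≤ 1 * t * 1 := by gcongr
        _ ≤ η := by linarith
    · have h2 : 1 - t / η ≤ 0 := by
        have : 1 ≤ t / η := (one_le_div hη).2 h
        linarith
      rw [max_eq_right h2]
      simpa using hη.le
  · intro D _ ρ hρ
    have h1 : ρ (cfc (fun t : ℝ => max (1 - t / η) 0) s) =
        cfc (fun t : ℝ => max (1 - t / η) 0) (ρ s) :=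
      StarAlgHomClass.map_cfc ρ _ s (by fun_prop) (map_continuous ρ) hsa (hsa.map ρ)
    rw [h1, hρ, cfc_apply_zero]
    simp

theorem t_small {F t s : A} (hF : IsSelfAdjoint F) (hts : ∃ z, s - star t * t = star z * z)
    {η : ℝ} (hFs : ‖F * s * F‖ ≤ η ^ 2) (hη : 0 ≤ η) : ‖t * F‖ ≤ η := by
  obtain ⟨z, hz⟩ := hts
  let := CStarAlgebra.spectralOrder A
  have := CStarAlgebra.spectralOrderedRing A
  have h1 : star t * t ≤ s := by
    rw [← sub_nonneg, hz]
    exact star_mul_self_nonneg z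
  have h2 : F * (star t * t) * F ≤ F * s * F := hF.conjugate_le_conjugate h1
  have h3 : F * (star t * t) * F = star (t * F) * (t * F) := by
    rw [star_mul, hF.star_eq]
    simp only [mul_assoc]
  have h4 : 0 ≤ F * (star t * t) * F := by rw [h3]; exact star_mul_self_nonneg _
  have h5 := CStarAlgebra.norm_le_norm_of_nonneg_of_le h4 h2
  rw [h3, CStarRing.norm_star_mul_self, ← sq] at h5
  exact (pow_le_pow_iff_left₀ (norm_nonneg _) hη two_ne_zero).1 (h5.trans hFs)

theorem sum_sq (S : Finset A) (t : A → A) :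
    ∃ y, ∑ b ∈ S, star (t b) * t b = star y * y := by
  let := CStarAlgebra.spectralOrder A
  have := CStarAlgebra.spectralOrderedRing A
  have h : (0 : A) ≤ ∑ b ∈ S, star (t b) * t b :=
    Finset.sum_nonneg fun b _ => star_mul_self_nonneg (t b)
  obtain ⟨y, hy⟩ := CStarAlgebra.nonneg_iff_eq_star_mul_self.1 h
  exact ⟨y, hy⟩

/-- In the full C*-algebra of the free group every vector state is excisable. -/
theorem exc_vec (hA : IsFull A u) (π : A →⋆ₐ[ℂ] (H →L[ℂ] H)) {ξ : H} (hξ : ‖ξ‖ = 1) :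
    Exc (vecF π ξ) := by
  classical
  intro S ε hε
  have hε3 : 0 < ε / 3 := by positivity
  choose Kf g hg1 hg2 using fun b : A => approx hA b hε3
  set K := S.sup Kf with hK
  have hgW : ∀ b ∈ S, g b ∈ W u K := fun b hb => W_mono (Finset.le_sup hb) (hg1 b)
  set φ := vecF π ξ with hφ
  obtain ⟨ρ, hρ⟩ := hA.lift (H →L[ℂ] H) (fun j => if j = K then 1 - (2 : ℂ) • P ξ else π (u j)) (by
    intro j
    by_cases hj : j = K
    · rw [if_pos hj]; exact refl_unitary ξ hξ
    · rw [if_neg hj]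
      have h1 := hA.unitary j
      rw [Unitary.mem_iff] at h1 ⊢
      rw [← map_star, ← map_mul, ← map_mul, h1.1, h1.2, map_one]
      exact ⟨rfl, rfl⟩)
  have hagree : ∀ b ∈ S, ρ (g b) = π (g b) := by
    intro b hb
    apply agree ρ π _ (hgW b hb)
    intro j hj
    rw [hρ, if_neg hj.ne]
  set p : A := (1 / 2 : ℂ) • (1 - u K) with hp
  have hρp : ρ p = P ξ := by
    rw [hp, map_smul, map_sub, map_one, hρ, if_pos rfl]
    module
  have h1n : ‖(1 : A)‖ ≤ 1 := by
    have h3 := CStarRing.norm_star_mul_self (x := (1 : A))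
    rw [star_one, mul_one] at h3
    by_contra hc
    push Not at hc
    nlinarith [norm_nonneg (1 : A)]
  have huK : ‖u K‖ ≤ 1 := by
    have h1 := (Unitary.mem_iff.1 (hA.unitary K)).1
    have h2 := CStarRing.norm_star_mul_self (x := u K)
    rw [h1] at h2
    by_contra hc
    push Not at hc
    nlinarith [norm_nonneg (1 : A)]
  have hpn : ‖p‖ ≤ 1 := by
    rw [hp, norm_smul]
    have h2 : ‖(1 / 2 : ℂ)‖ = 1 / 2 := by norm_num
    rw [h2]
    have := norm_sub_le (1 : A) (u K)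
    linarith
  set t : A → A := fun b => star p * g b * p - φ (g b) • (star p * p) with ht
  have hρt : ∀ b ∈ S, ρ (t b) = 0 := by
    intro b hb
    rw [ht]
    simp only [map_sub, map_mul, map_smul, map_star, hρp, P_star, hagree b hb]
    rw [P_conj, P_sq ξ hξ, hφ, vecF_apply, sub_self]
  set s : A := ∑ b ∈ S, star (t b) * t b with hs
  have hρs : ρ s = 0 := by
    rw [hs, map_sum]
    apply Finset.sum_eq_zero
    intro b hb
    rw [map_mul, hρt b hb, mul_zero]
  obtain ⟨F, hF1, hF2, hF3, hF4⟩ := small s (sum_sq S t) (η := (ε / 3) ^ 2) (by positivity)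
  have hρF : ρ F = 1 := hF4 _ ρ hρs
  refine ⟨p * F, ?_, ?_⟩
  · apply le_antisymm
    · refine (norm_mul_le _ _).trans ?_
      calc ‖p‖ * ‖F‖ ≤ 1 * 1 := mul_le_mul hpn hF2 (norm_nonneg _) zero_le_one
        _ = 1 := one_mul 1
    · have h5 : ρ (p * F) = P ξ := by rw [map_mul, hρp, hρF, mul_one]
      have h6 := NonUnitalStarAlgHom.norm_apply_le ρ (p * F)
      rw [h5] at h6
      exact (P_norm ξ hξ).trans h6
  · intro b hb
    have htF : ‖t b * F‖ ≤ ε / 3 := by
      apply t_small hF1 (s := s) _ hF3 hε3.le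
      obtain ⟨z, hz⟩ := sum_sq (S.erase b) t
      refine ⟨z, ?_⟩
      rw [← hz, hs, ← Finset.add_sum_erase S _ hb, add_sub_cancel_left]
    have e1 : star (p * F) * b * (p * F) - φ b • (star (p * F) * (p * F)) =
        F * (star p * (b - g b) * p) * F - φ (b - g b) • (F * (star p * p) * F) + F * (t b * F) := by
      rw [star_mul, hF1.star_eq, ht, map_sub]
      simp only [mul_sub, sub_mul, sub_smul, mul_smul_comm, smul_mul_assoc, mul_assoc]
      abel
    rw [e1]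
    have hpp : ‖star p * p‖ ≤ 1 := by
      rw [CStarRing.norm_star_mul_self]
      calc ‖p‖ * ‖p‖ ≤ 1 * 1 := mul_le_mul hpn hpn (norm_nonneg _) zero_le_one
        _ = 1 := one_mul 1
    have hc : ∀ x : A, ‖F * x * F‖ ≤ ‖x‖ := by
      intro x
      calc ‖F * x * F‖ ≤ ‖F * x‖ * ‖F‖ := norm_mul_le _ _
        _ ≤ (‖F‖ * ‖x‖) * ‖F‖ := mul_le_mul_of_nonneg_right (norm_mul_le _ _) (norm_nonneg _)
        _ ≤ (1 * ‖x‖) * 1 := by gcongr
        _ = ‖x‖ := by ring
    have hd : ∀ x : A, ‖star p * x * p‖ ≤ ‖x‖ := by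
      intro x
      calc ‖star p * x * p‖ ≤ ‖star p * x‖ * ‖p‖ := norm_mul_le _ _
        _ ≤ (‖star p‖ * ‖x‖) * ‖p‖ := mul_le_mul_of_nonneg_right (norm_mul_le _ _) (norm_nonneg _)
        _ ≤ (1 * ‖x‖) * 1 := by rw [norm_star]; gcongr
        _ = ‖x‖ := by ring
    have a1 : ‖F * (star p * (b - g b) * p) * F‖ ≤ ε / 3 := (hc _).trans ((hd _).trans (hg2 b))
    have a2 : ‖φ (b - g b) • (F * (star p * p) * F)‖ ≤ ε / 3 := by
      rw [norm_smul]
      calc ‖φ (b - g b)‖ * ‖F * (star p * p) * F‖ ≤ (ε / 3) * 1 :=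
            mul_le_mul ((vecF_le π hξ _).trans (hg2 b)) ((hc _).trans hpp) (norm_nonneg _) hε3.le
        _ = ε / 3 := mul_one _
    have a3 : ‖F * (t b * F)‖ ≤ ε / 3 := by
      calc ‖F * (t b * F)‖ ≤ ‖F‖ * ‖t b * F‖ := norm_mul_le _ _
        _ ≤ 1 * (ε / 3) := mul_le_mul hF2 htF (norm_nonneg _) zero_le_one
        _ = ε / 3 := one_mul _
    calc _ ≤ ‖F * (star p * (b - g b) * p) * F - φ (b - g b) • (F * (star p * p) * F)‖ +
          ‖F * (t b * F)‖ := norm_add_le _ _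
      _ ≤ (‖F * (star p * (b - g b) * p) * F‖ + ‖φ (b - g b) • (F * (star p * p) * F)‖) +
          ‖F * (t b * F)‖ := by gcongr; exact norm_sub_le _ _
      _ ≤ ε := by linarith

end exc

end Pool.Agent.Helper22K.FN
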