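import Mathlib
import Pool.Agent.Helper22K.FN.Defs
set_option autoImplicit false
set_option linter.unusedSectionVars false
open scoped ENNReal CStarAlgebra

namespace Pool.Agent.Helper22K.FN

noncomputable section

/-- noncommutative *-polynomials -/
abbrev NP : Type := FreeAlgebra ℂ (ℕ ⊕ ℕ)

/-- evaluation at a sequence and its adjoints -/
def ev {D : Type} [CStarAlgebra D] (v : ℕ → D) : NP →ₐ[ℂ] D :=
  FreeAlgebra.lift ℂ (Sum.elim v (fun n => star (v n)))

section ev
variable {D : Type} [CStarAlgebra D]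

theorem norm_one_le' : ‖(1 : D)‖ ≤ 1 := by
  have h3 := CStarRing.norm_star_mul_self (x := (1 : D))
  rw [star_one, mul_one] at h3
  by_contra hc
  push Not at hc
  nlinarith [norm_nonneg (1 : D)]

theorem norm_unitary_le {x : D} (hx : x ∈ unitary D) : ‖x‖ ≤ 1 := by
  have h1 := (Unitary.mem_iff.1 hx).1
  have h2 := CStarRing.norm_star_mul_self (x := x)
  rw [h1] at h2
  have h1n := norm_one_le' (D := D)
  by_contra hc
  push Not at hc
  nlinarith [norm_nonneg (1 : D)]

theorem mem_adjoin_iff (v : ℕ → D) (x : D) :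
    x ∈ StarAlgebra.adjoin ℂ (Set.range v) ↔ ∃ p, ev v p = x := by
  have h3 : Set.range v ∪ star (Set.range v) = Set.range (Sum.elim v (fun n => star (v n))) := by
    rw [Set.Sum.elim_range]
    congr 1
    ext x
    simp only [Set.mem_star, Set.mem_range]
    constructor
    · rintro ⟨n, hn⟩
      exact ⟨n, by rw [hn, star_star]⟩
    · rintro ⟨n, hn⟩
      exact ⟨n, by rw [← hn, star_star]⟩
  have h4 : x ∈ StarAlgebra.adjoin ℂ (Set.range v) ↔
      x ∈ Algebra.adjoin ℂ (Set.range (Sum.elim v (fun n => star (v n)))) := by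
    rw [← h3, ← StarAlgebra.adjoin_toSubalgebra]
    rfl
  rw [h4, Algebra.adjoin_range_eq_range_freeAlgebra_lift]
  rfl

theorem ev_bdd (p : NP) : ∃ C : ℝ, ∀ (D : Type) [CStarAlgebra D] (v : ℕ → D),
    (∀ n, v n ∈ unitary D) → ‖ev v p‖ ≤ C := by
  induction p using FreeAlgebra.induction with
  | grade0 r =>
    refine ⟨‖r‖, fun D _ v hv => ?_⟩
    rw [AlgHom.commutes, Algebra.algebraMap_eq_smul_one, norm_smul]
    calc ‖r‖ * ‖(1 : D)‖ ≤ ‖r‖ * 1 := by gcongr; exact norm_one_le'
      _ = ‖r‖ := mul_one _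
  | grade1 x =>
    refine ⟨1, fun D _ v hv => ?_⟩
    rw [ev, FreeAlgebra.lift_ι_apply]
    rcases x with n | n
    · exact norm_unitary_le (hv n)
    · show ‖star (v n)‖ ≤ 1
      rw [norm_star]
      exact norm_unitary_le (hv n)
  | mul a b ha hb =>
    obtain ⟨C, hC⟩ := ha
    obtain ⟨E, hE⟩ := hb
    refine ⟨C * E, fun D _ v hv => ?_⟩
    rw [map_mul]
    refine (norm_mul_le _ _).trans ?_
    exact mul_le_mul (hC D v hv) (hE D v hv) (norm_nonneg _)
      ((norm_nonneg _).trans (hC D v hv))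
  | add a b ha hb =>
    obtain ⟨C, hC⟩ := ha
    obtain ⟨E, hE⟩ := hb
    refine ⟨C + E, fun D _ v hv => ?_⟩
    rw [map_add]
    exact (norm_add_le _ _).trans (add_le_add (hC D v hv) (hE D v hv))

end ev

/-- unital C*-algebras with a sequence of unitaries, nontrivial -/
structure Pt where
  D : Type
  inst : CStarAlgebra D
  nt : Nontrivial D
  v : ℕ → D
  hv : ∀ n, v n ∈ unitary D

instance (x : Pt) : CStarAlgebra x.D := x.inst
instance (x : Pt) : Nontrivial x.D := x.nt

instance instLp {I : Type} {D : I → Type} [∀ i, CStarAlgebra (D i)] [∀ i, Nontrivial (D i)] :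
    CStarAlgebra (lp D ∞) where
  norm_mul_self_le := fun x => CStarRing.norm_star_mul_self (x := x) |>.symm.le

theorem exists_fam : ∃ F : NP → ℕ → Pt, ∀ p (x : Pt) (k : ℕ),
    ‖ev x.v p‖ - 1 / ((k : ℝ) + 1) ≤ ‖ev (F p k).v p‖ := by
  have key : ∀ (p : NP) (k : ℕ), ∃ y : Pt, ∀ x : Pt,
      ‖ev x.v p‖ - 1 / ((k : ℝ) + 1) ≤ ‖ev y.v p‖ := by
    intro p k
    obtain ⟨C, hC⟩ := ev_bdd p
    set R : Set ℝ := {r | ∃ x : Pt, r = ‖ev x.v p‖} with hR
    have hne : R.Nonempty := ⟨_, ⟨ℂ, inferInstance, inferInstance, fun _ => 1, fun _ => one_mem _⟩, rfl⟩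
    have hbd : BddAbove R := ⟨C, by rintro r ⟨x, rfl⟩; exact hC x.D x.v x.hv⟩
    have hlt : sSup R - 1 / ((k : ℝ) + 1) < sSup R := sub_lt_self _ (by positivity)
    obtain ⟨r, ⟨y, rfl⟩, hy⟩ := exists_lt_of_lt_csSup hne hlt
    refine ⟨y, fun x => ?_⟩
    have h1 : ‖ev x.v p‖ ≤ sSup R := le_csSup hbd ⟨x, rfl⟩
    linarith
  choose F hF using key
  exact ⟨F, fun p x k => hF p k x⟩

/-- a universal sequence of unitaries -/
theorem exists_univ : ∃ (E : Type) (_ : CStarAlgebra E) (U : ℕ → E), (∀ n, U n ∈ unitary E) ∧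
    ∀ (D : Type) [CStarAlgebra D] (v : ℕ → D), (∀ n, v n ∈ unitary D) →
      ∀ p, ‖ev v p‖ ≤ ‖ev U p‖ := by
  obtain ⟨F, hF⟩ := exists_fam
  let D : NP × ℕ → Type := fun i => (F i.1 i.2).D
  let _ : ∀ i, CStarAlgebra (D i) := fun i => (F i.1 i.2).inst
  have _ : ∀ i, Nontrivial (D i) := fun i => (F i.1 i.2).nt
  let U : ℕ → lp D ∞ := fun n => ⟨fun i => (F i.1 i.2).v n, memℓp_infty ⟨1, by
    rintro _ ⟨i, rfl⟩
    exact norm_unitary_le ((F i.1 i.2).hv n)⟩⟩
  have hU : ∀ n i, (U n) i = (F i.1 i.2).v n := fun n i => rfl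
  have hmem : ∀ n, U n ∈ unitary (lp D ∞) := by
    intro n
    rw [Unitary.mem_iff]
    constructor
    · apply lp.ext
      funext i
      exact (Unitary.mem_iff.1 ((F i.1 i.2).hv n)).1
    · apply lp.ext
      funext i
      exact (Unitary.mem_iff.1 ((F i.1 i.2).hv n)).2
  have hev : ∀ (p : NP) i, (ev U p) i = ev (F i.1 i.2).v p := by
    intro p i
    induction p using FreeAlgebra.induction with
    | grade0 r =>
      rw [AlgHom.commutes, AlgHom.commutes, Algebra.algebraMap_eq_smul_one,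
        Algebra.algebraMap_eq_smul_one]
      rfl
    | grade1 x =>
      rw [ev, ev, FreeAlgebra.lift_ι_apply, FreeAlgebra.lift_ι_apply]
      rcases x with n | n
      · rfl
      · rfl
    | mul a b ha hb =>
      rw [map_mul, map_mul, ← ha, ← hb]
      rfl
    | add a b ha hb =>
      rw [map_add, map_add, ← ha, ← hb]
      rfl
  refine ⟨lp D ∞, inferInstance, U, hmem, ?_⟩
  intro C _ v hv p
  rcases subsingleton_or_nontrivial C with hC | hC
  · rw [Subsingleton.elim (ev v p) 0, norm_zero]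
    exact norm_nonneg _
  · have h1 : ∀ k : ℕ, ‖ev v p‖ - 1 / ((k : ℝ) + 1) ≤ ‖ev U p‖ := by
      intro k
      refine (hF p ⟨C, inferInstance, hC, v, hv⟩ k).trans ?_
      rw [← hev p (p, k)]
      exact lp.norm_apply_le_norm ENNReal.top_ne_zero (ev U p) (p, k)
    have h2 : Filter.Tendsto (fun k : ℕ => ‖ev v p‖ - 1 / ((k : ℝ) + 1)) Filter.atTop
        (nhds (‖ev v p‖ - 0)) :=
      tendsto_const_nhds.sub tendsto_one_div_add_atTop_nhds_zero_nat
    rw [sub_zero] at h2
    exact le_of_tendsto' h2 h1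

/-- The full C*-algebra of the free group on countably many generators exists. -/
theorem exists_isFull : ∃ (A : Type) (_ : CStarAlgebra A) (u : ℕ → A), IsFull A u := by
  obtain ⟨E, iE, U, hU, huniv⟩ := exists_univ
  let S0 : StarSubalgebra ℂ E := (StarAlgebra.adjoin ℂ (Set.range U)).topologicalClosure
  have hS0 : IsClosed (S0 : Set E) := StarSubalgebra.isClosed_topologicalClosure _
  have hUm : ∀ n, U n ∈ S0 := fun n =>
    StarSubalgebra.le_topologicalClosure _ (StarAlgebra.subset_adjoin ℂ _ ⟨n, rfl⟩)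
  let _ : CStarAlgebra S0 := StarSubalgebra.cstarAlgebra S0 (h_closed := hS0)
  refine ⟨S0, inferInstance, fun n => ⟨U n, hUm n⟩, ?_, ?_, ?_⟩
  · intro n
    have h := Unitary.mem_iff.1 (hU n)
    rw [Unitary.mem_iff]
    exact ⟨Subtype.ext h.1, Subtype.ext h.2⟩
  · intro S hS hSu
    have h1 : IsClosed ((S.map S0.subtype : StarSubalgebra ℂ E) : Set E) := by
      have h2 : ((S.map S0.subtype : StarSubalgebra ℂ E) : Set E) = Subtype.val '' (S : Set S0) := rfl
      rw [h2]
      exact hS0.isClosedEmbedding_subtypeVal.isClosedMap _ hS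
    have h2 : S0 ≤ S.map S0.subtype := by
      apply StarSubalgebra.topologicalClosure_minimal _ h1
      apply StarAlgebra.adjoin_le
      rintro _ ⟨n, rfl⟩
      exact ⟨⟨U n, hUm n⟩, hSu n, rfl⟩
    rw [eq_top_iff]
    intro x _
    obtain ⟨y, hy, hxy⟩ := h2 x.2
    have h3 : y = x := Subtype.ext hxy
    rw [← h3]
    exact hy
  · intro D _ v hv
    let w : ℕ → E × D := fun n => (U n, v n)
    let S1 : StarSubalgebra ℂ (E × D) := (StarAlgebra.adjoin ℂ (Set.range w)).topologicalClosure
    have hS1 : IsClosed (S1 : Set (E × D)) := StarSubalgebra.isClosed_topologicalClosure _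
    have hwm : ∀ n, w n ∈ S1 := fun n =>
      StarSubalgebra.le_topologicalClosure _ (StarAlgebra.subset_adjoin ℂ _ ⟨n, rfl⟩)
    have hev1 : ∀ p, (ev w p).1 = ev U p := by
      intro p
      have h : (AlgHom.fst ℂ E D).comp (ev w) = ev U := by
        apply FreeAlgebra.hom_ext
        funext x
        simp only [Function.comp_apply, AlgHom.comp_apply, ev, FreeAlgebra.lift_ι_apply]
        rcases x with n | n <;> rfl
      exact DFunLike.congr_fun h p
    have hev2 : ∀ p, (ev w p).2 = ev v p := by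
      intro p
      have h : (AlgHom.snd ℂ E D).comp (ev w) = ev v := by
        apply FreeAlgebra.hom_ext
        funext x
        simp only [Function.comp_apply, AlgHom.comp_apply, ev, FreeAlgebra.lift_ι_apply]
        rcases x with n | n <;> rfl
      exact DFunLike.congr_fun h p
    have hle : ∀ z ∈ S1, ‖z.2‖ ≤ ‖z.1‖ := by
      have h1 : closure ((StarAlgebra.adjoin ℂ (Set.range w) : StarSubalgebra ℂ (E × D)) :
          Set (E × D)) ⊆ {z | ‖z.2‖ ≤ ‖z.1‖} := by
        apply closure_minimal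
        · intro z hz
          obtain ⟨p, rfl⟩ := (mem_adjoin_iff w z).1 hz
          show ‖(ev w p).2‖ ≤ ‖(ev w p).1‖
          rw [hev1, hev2]
          exact huniv D v hv p
        · exact isClosed_le (by fun_prop) (by fun_prop)
      intro z hz
      exact h1 hz
    let _ : CStarAlgebra S1 := StarSubalgebra.cstarAlgebra S1 (h_closed := hS1)
    let f : S1 →⋆ₐ[ℂ] E := (StarAlgHom.fst ℂ E D).comp S1.subtype
    have hf : ∀ z : S1, f z = (z : E × D).1 := fun z => rfl
    have hiso : Isometry f := by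
      apply AddMonoidHomClass.isometry_of_norm
      intro z
      rw [hf]
      show ‖(z : E × D).1‖ = ‖(z : E × D)‖
      rw [Prod.norm_def, max_eq_left (hle z z.2)]
    have hrange : S0 ≤ f.range := by
      apply StarSubalgebra.topologicalClosure_minimal
      · apply StarAlgebra.adjoin_le
        rintro _ ⟨n, rfl⟩
        exact ⟨⟨w n, hwm n⟩, rfl⟩
      · have h2 : ((f.range : StarSubalgebra ℂ E) : Set E) = Set.range f := rfl
        rw [h2]
        exact hiso.isClosedEmbedding.isClosed_range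
    have hex : ∀ a : S0, ∃ z : S1, f z = (a : E) := fun a => hrange a.2
    choose c hc using hex
    have huniq : ∀ (a : S0) (z : S1), f z = (a : E) → c a = z := fun a z h =>
      hiso.injective ((hc a).trans h.symm)
    refine ⟨{ toFun := fun a => (c a : E × D).2, map_one' := ?_, map_mul' := ?_, map_zero' := ?_,
              map_add' := ?_, commutes' := ?_, map_star' := ?_ }, ?_⟩
    · rw [huniq 1 1 (map_one f)]
      rfl
    · intro a b
      rw [huniq (a * b) (c a * c b) (by rw [map_mul, hc, hc]; rfl)]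
      rfl
    · rw [huniq 0 0 (map_zero f)]
      rfl
    · intro a b
      rw [huniq (a + b) (c a + c b) (by rw [map_add, hc, hc]; rfl)]
      rfl
    · intro r
      rw [huniq (algebraMap ℂ S0 r) (algebraMap ℂ S1 r) (by rw [AlgHomClass.commutes]; rfl)]
      rfl
    · intro a
      rw [huniq (star a) (star (c a)) (by rw [map_star, hc]; rfl)]
      rfl
    · intro n
      show (c ⟨U n, hUm n⟩ : E × D).2 = v n
      rw [huniq ⟨U n, hUm n⟩ ⟨w n, hwm n⟩ rfl]

end

end Pool.Agent.Helper22K.FN
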