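import Pool.Agent.Helper22K.FN.Min
set_option autoImplicit false
set_option linter.unusedSectionVars false
open scoped TensorProduct ComplexOrder BigOperators InnerProductSpace CStarAlgebra Cardinal

namespace Pool.Agent.Helper22K.FN
open Pool.Agent.Helper965.CN

section mx
variable {A B : Type} [CStarAlgebra A] [CStarAlgebra B]

/-- the largest C*-norm -/
noncomputable def mx (t : A ⊗[ℂ] B) : ℝ :=
  sSup {r : ℝ | ∃ N : A ⊗[ℂ] B → ℝ, IsCStarNorm N ∧ r = N t}

theorem le_mx {N : A ⊗[ℂ] B → ℝ} (h : IsCStarNorm N) (t : A ⊗[ℂ] B) : N t ≤ mx t := by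
  obtain ⟨C, hC⟩ := semi_bdd t
  refine le_csSup ⟨C, ?_⟩ ⟨N, h, rfl⟩
  rintro r ⟨N', h', rfl⟩
  exact hC _ (toSemi h')

theorem mx_le {t : A ⊗[ℂ] B} {C : ℝ} (hC : 0 ≤ C)
    (h : ∀ N : A ⊗[ℂ] B → ℝ, IsCStarNorm N → N t ≤ C) : mx t ≤ C := by
  apply Real.sSup_le _ hC
  rintro r ⟨N, h', rfl⟩
  exact h N h'

theorem mx_nonneg (t : A ⊗[ℂ] B) : 0 ≤ mx t := by
  apply Real.sSup_nonneg
  rintro r ⟨N, h', rfl⟩
  exact h'.nonneg t

theorem mx_semi0 : IsSemi (mx (A := A) (B := B)) := by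
  have hsm : ∀ (c : ℂ) (x : A ⊗[ℂ] B), mx (c • x) ≤ ‖c‖ * mx x := by
    intro c x
    apply mx_le (mul_nonneg (norm_nonneg _) (mx_nonneg _))
    intro N h
    rw [h.smul]
    exact mul_le_mul_of_nonneg_left (le_mx h x) (norm_nonneg _)
  refine ⟨mx_nonneg, fun x y => ?_, fun c x => ?_, fun x y => ?_, fun x => ?_, fun x => ?_⟩
  · apply mx_le (add_nonneg (mx_nonneg _) (mx_nonneg _))
    intro N h
    exact (h.add_le x y).trans (add_le_add (le_mx h x) (le_mx h y))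
  · apply le_antisymm (hsm c x)
    by_cases hc : c = 0
    · rw [hc, norm_zero, zero_mul]; exact mx_nonneg _
    · have h1 := hsm c⁻¹ (c • x)
      rw [smul_smul, inv_mul_cancel₀ hc, one_smul, norm_inv] at h1
      have hc' : 0 < ‖c‖ := norm_pos_iff.2 hc
      calc ‖c‖ * mx x ≤ ‖c‖ * (‖c‖⁻¹ * mx (c • x)) := by gcongr
        _ = mx (c • x) := by rw [← mul_assoc, mul_inv_cancel₀ hc'.ne', one_mul]
  · apply mx_le (mul_nonneg (mx_nonneg _) (mx_nonneg _))
    intro N h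
    exact (h.mul_le x y).trans (mul_le_mul (le_mx h x) (le_mx h y) (h.nonneg _) (mx_nonneg _))
  · apply le_antisymm
    · apply mx_le (mx_nonneg _)
      intro N h
      rw [h.norm_star]
      exact le_mx h x
    · apply mx_le (mx_nonneg _)
      intro N h
      rw [← h.norm_star]
      exact le_mx h _
  · apply le_antisymm
    · apply mx_le (sq_nonneg (mx x))
      intro N h
      rw [h.cstar]
      exact pow_le_pow_left₀ (h.nonneg x) (le_mx h x) 2
    · have h1 : mx x ≤ Real.sqrt (mx (star x * x)) := by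
        apply mx_le (Real.sqrt_nonneg _)
        intro N h
        apply Real.le_sqrt_of_sq_le
        rw [← h.cstar]
        exact le_mx h _
      calc mx x ^ 2 ≤ (Real.sqrt (mx (star x * x))) ^ 2 :=
            pow_le_pow_left₀ (mx_nonneg x) h1 2
        _ = _ := Real.sq_sqrt (mx_nonneg _)

theorem mx_norm {N : A ⊗[ℂ] B → ℝ} (h : IsCStarNorm N) : IsCStarNorm (mx (A := A) (B := B)) := by
  refine mx_semi0.toNorm fun x hx => h.eq_zero x ?_
  exact le_antisymm (by rw [← hx]; exact le_mx h x) (h.nonneg x)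

theorem semi_le_mx {N : A ⊗[ℂ] B → ℝ} (h : IsCStarNorm N) {p : A ⊗[ℂ] B → ℝ} (hp : IsSemi p)
    (t : A ⊗[ℂ] B) : p t ≤ mx t :=
  (le_max_right _ _).trans (le_mx (max_norm h hp) t)

theorem tm_comp (φ ψ : A →⋆ₐ[ℂ] A) (x : A ⊗[ℂ] B) : tm B (φ.comp ψ) x = tm B φ (tm B ψ x) := by
  induction x using TensorProduct.induction_on with
  | zero => simp
  | tmul a b => simp
  | add x y hx hy => rw [map_add, map_add, map_add, hx, hy]

theorem tm_id (x : A ⊗[ℂ] B) : tm B (StarAlgHom.id ℂ A) x = x := by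
  induction x using TensorProduct.induction_on with
  | zero => simp
  | tmul a b => simp
  | add x y hx hy => rw [map_add, hx, hy]

end mx

section fam
variable {A B : Type} [CStarAlgebra A] [CStarAlgebra B] {u : ℕ → A}

/-- swap the first block with the block number `n + 1` -/
def sw (K n j : ℕ) : ℕ :=
  if j < K then j + (n + 1) * K else if (n + 1) * K ≤ j ∧ j < (n + 2) * K then j - (n + 1) * K else j

theorem sw_sw (K n j : ℕ) : sw K n (sw K n j) = j := by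
  have e : (n + 2) * K = (n + 1) * K + K := by ring
  have e1 : (n + 1) * K = n * K + K := by ring
  unfold sw
  rw [e]
  generalize hm : (n + 1) * K = m at *
  have hK : K ≤ m := by omega
  by_cases h1 : j < K
  · rw [if_pos h1, if_neg (by omega), if_pos (by omega)]
    omega
  · rw [if_neg h1]
    by_cases h2 : m ≤ j ∧ j < m + K
    · rw [if_pos h2, if_pos (by omega)]
      omega
    · rw [if_neg h2, if_neg h1, if_neg h2]

theorem sw_lt {K n j : ℕ} (h : j < K) : sw K n j = j + (n + 1) * K := if_pos h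

theorem approx_tensor (hA : IsFull A u) (p q : A ⊗[ℂ] B → ℝ) (hp : IsSemi p) (hq : IsSemi q)
    (t : A ⊗[ℂ] B) (h : p t < q t) :
    ∃ (K : ℕ) (S : Finset (A × B)) (g : A → A), (∀ i ∈ S, g i.1 ∈ W u K) ∧
      p (∑ i ∈ S, g i.1 ⊗ₜ[ℂ] i.2) < q (∑ i ∈ S, g i.1 ⊗ₜ[ℂ] i.2) := by
  classical
  obtain ⟨S, hS⟩ := TensorProduct.exists_finset t
  set C : ℝ := ∑ i ∈ S, ‖i.2‖ with hC
  have hC0 : 0 ≤ C := Finset.sum_nonneg fun i _ => norm_nonneg _
  set ε : ℝ := (q t - p t) / (3 * (C + 1)) with hε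
  have hε0 : 0 < ε := div_pos (sub_pos.2 h) (by positivity)
  have hεC : ε * C ≤ (q t - p t) / 3 := by
    rw [hε, div_mul_eq_mul_div, div_le_div_iff₀ (by positivity) (by positivity)]
    nlinarith
  choose Kf g hg1 hg2 using fun b : A => approx hA b hε0
  refine ⟨S.sup fun i => Kf i.1, S, g, fun i hi => ?_, ?_⟩
  · exact W_mono (Finset.le_sup (f := fun i : A × B => Kf i.1) hi) (hg1 i.1)
  · set x := ∑ i ∈ S, g i.1 ⊗ₜ[ℂ] i.2 with hx
    have hd : t - x = ∑ i ∈ S, (i.1 - g i.1) ⊗ₜ[ℂ] i.2 := by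
      rw [hx, hS, ← Finset.sum_sub_distrib]
      exact Finset.sum_congr rfl fun i _ => (TensorProduct.sub_tmul _ _ _).symm
    have hb : ∀ r : A ⊗[ℂ] B → ℝ, IsSemi r → r (t - x) ≤ ε * C := by
      intro r hr
      rw [hd, hC, Finset.mul_sum]
      refine (hr.sum_le _ _).trans (Finset.sum_le_sum fun i hi => ?_)
      refine (semi_tmul hr _ _).trans ?_
      exact mul_le_mul_of_nonneg_right (hg2 _) (norm_nonneg _)
    have h1 : p x ≤ p t + p (t - x) := by
      have := hp.le_add_sub x t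
      rwa [← neg_sub t x, hp.neg] at this
    have h2 : q t ≤ q x + q (t - x) := hq.le_add_sub t x
    have h3 := hb p hp
    have h4 := hb q hq
    have h5 := sub_pos.2 h
    linarith

theorem tm_agree (φ ψ : A →⋆ₐ[ℂ] A) {K : ℕ} (h : ∀ j, j < K → φ (u j) = ψ (u j))
    (S : Finset (A × B)) (g : A → A) (hg : ∀ i ∈ S, g i.1 ∈ W u K) :
    tm B φ (∑ i ∈ S, g i.1 ⊗ₜ[ℂ] i.2) = tm B ψ (∑ i ∈ S, g i.1 ⊗ₜ[ℂ] i.2) := by
  rw [map_sum, map_sum]
  refine Finset.sum_congr rfl fun i hi => ?_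
  rw [tm_tmul, tm_tmul, agree φ ψ h (hg i hi)]

/-- if there are two C*-norms then there is an injection from the subsets of `ℕ` -/
theorem exists_family (hA : IsFull A u) {N1 N2 : A ⊗[ℂ] B → ℝ} (h1 : IsCStarNorm N1)
    (h2 : IsCStarNorm N2) (h12 : N1 ≠ N2) :
    ∃ f : Set ℕ → {N : A ⊗[ℂ] B → ℝ // IsCStarNorm N}, Function.Injective f := by
  classical
  obtain ⟨δ, hδ, hδl⟩ := exists_least hA B
  have hM : IsCStarNorm (mx (A := A) (B := B)) := mx_norm h1
  have hlt : ∃ t, δ t < mx t := by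
    by_contra hc
    push Not at hc
    apply h12
    funext t
    have a1 := hδl N1 h1 t
    have a2 := hδl N2 h2 t
    have a3 := le_mx h1 t
    have a4 := le_mx h2 t
    have a5 := hc t
    linarith
  obtain ⟨t, ht⟩ := hlt
  obtain ⟨K, S, g, hg, hx⟩ := approx_tensor hA δ mx (toSemi hδ) (toSemi hM) t ht
  set x := ∑ i ∈ S, g i.1 ⊗ₜ[ℂ] i.2 with hxd
  -- the homomorphisms
  have hΘ : ∀ n : ℕ, ∃ Θ : A →⋆ₐ[ℂ] A, ∀ j, Θ (u j) = u (sw K n j) := fun n =>
    hA.lift A (fun j => u (sw K n j)) (fun j => hA.unitary _)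
  choose Θ hΘ using hΘ
  have hΘΘ : ∀ n, (Θ n).comp (Θ n) = StarAlgHom.id ℂ A := by
    intro n
    apply hom_ext hA
    intro j
    rw [StarAlgHom.comp_apply, hΘ, hΘ, sw_sw]
    rfl
  have hΘ2 : ∀ n (y : A ⊗[ℂ] B), tm B (Θ n) (tm B (Θ n) y) = y := by
    intro n y
    rw [← tm_comp, hΘΘ, tm_id]
  have hQ : ∀ T : Set ℕ, ∃ Q : A →⋆ₐ[ℂ] A, ∀ j, Q (u j) = if (j / K - 1) ∈ T then u j else 1 :=
    fun T => hA.lift A (fun j => if (j / K - 1) ∈ T then u j else 1) (fun j => by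
      by_cases hj : (j / K - 1) ∈ T
      · rw [if_pos hj]; exact hA.unitary _
      · rw [if_neg hj]; exact one_mem _)
  choose Q hQ using hQ
  obtain ⟨χ, hχ⟩ := hA.lift ℂ (fun _ => 1) (fun _ => one_mem _)
  have hdiv : ∀ n j, j < K → (j + (n + 1) * K) / K - 1 = n := by
    intro n j hj
    have hK : 0 < K := by omega
    rw [Nat.add_mul_div_right _ _ hK, Nat.div_eq_of_lt hj]
    omega
  -- the points of distinction
  set y : ℕ → A ⊗[ℂ] B := fun n => tm B (Θ n) x with hy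
  have hMy : ∀ n, mx (y n) = mx x := by
    intro n
    apply le_antisymm
    · exact semi_le_mx hM (semi_tm (toSemi hM) (Θ n)) x
    · have h3 := semi_le_mx hM (semi_tm (toSemi hM) (Θ n)) (y n)
      simp only [hy] at h3 ⊢
      rwa [hΘ2] at h3
  have hδy : ∀ n, δ (y n) ≤ δ x := by
    intro n
    have h3 : IsCStarNorm (fun z => δ (tm B (Θ n) z)) := by
      refine (semi_tm (toSemi hδ) (Θ n)).toNorm fun z hz => ?_
      have h4 := hδ.eq_zero _ hz
      rw [← hΘ2 n z, h4, map_zero]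
    have h5 := hδl _ h3 (y n)
    simp only [hy] at h5 ⊢
    rwa [hΘ2] at h5
  -- the trivial character
  have hExc : ‖sl B (χ : A →ₗ[ℂ] ℂ) x‖ ≤ δ x := by
    have h3 := slice_le (exc_vec hA ((StarAlgHom.ofId ℂ (ℂ →L[ℂ] ℂ)).comp χ) (ξ := (1 : ℂ))
      (by simp)) hδ x
    have h4 : vecF ((StarAlgHom.ofId ℂ (ℂ →L[ℂ] ℂ)).comp χ) (1 : ℂ) = (χ : A →ₗ[ℂ] ℂ) := by
      ext a
      rw [vecF_apply, StarAlgHom.comp_apply, StarAlgHom.ofId_apply, Algebra.algebraMap_eq_smul_one]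
      show inner ℂ (1 : ℂ) (χ a • (1 : ℂ)) = χ a
      simp
    rwa [h4] at h3
  have htriv : ∀ z : A ⊗[ℂ] B, tm B ((StarAlgHom.ofId ℂ A).comp χ) z =
      (1 : A) ⊗ₜ[ℂ] (sl B (χ : A →ₗ[ℂ] ℂ) z) := by
    intro z
    induction z using TensorProduct.induction_on with
    | zero => simp
    | tmul a b =>
      rw [tm_tmul, StarAlgHom.comp_apply, StarAlgHom.ofId_apply, Algebra.algebraMap_eq_smul_one,
        sl_tmul, TensorProduct.smul_tmul]
      rfl
    | add z z' hz hz' => rw [map_add, map_add, TensorProduct.tmul_add, hz, hz']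
  have hin : ∀ (T : Set ℕ) (n : ℕ), n ∈ T → tm B (Q T) (y n) = y n := by
    intro T n hn
    simp only [hy]
    rw [← tm_comp, hxd]
    apply tm_agree _ _ _ S g hg
    intro j hj
    rw [StarAlgHom.comp_apply, hΘ, hQ, sw_lt hj, if_pos]
    rw [hdiv n j hj]
    exact hn
  have hout : ∀ (T : Set ℕ) (n : ℕ), n ∉ T → mx (tm B (Q T) (y n)) ≤ δ x := by
    intro T n hn
    have h3 : tm B (Q T) (y n) = tm B ((StarAlgHom.ofId ℂ A).comp χ) x := by
      simp only [hy]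
      rw [← tm_comp, hxd]
      apply tm_agree _ _ _ S g hg
      intro j hj
      rw [StarAlgHom.comp_apply, hΘ, hQ, sw_lt hj, if_neg, StarAlgHom.comp_apply, hχ, map_one]
      rw [hdiv n j hj]
      exact hn
    rw [h3, htriv]
    exact (semi_right (toSemi hM) _).trans hExc
  -- the family
  have hN : ∀ T : Set ℕ, IsCStarNorm (fun z : A ⊗[ℂ] B => max (δ z) (mx (tm B (Q T) z))) :=
    fun T => max_norm hδ (semi_tm (toSemi hM) (Q T))
  have hsep : ∀ T T' : Set ℕ, ∀ n, n ∈ T → n ∉ T' →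
      max (δ (y n)) (mx (tm B (Q T') (y n))) < max (δ (y n)) (mx (tm B (Q T) (y n))) := by
    intro T T' n hn hn'
    have h3 := hout T' n hn'
    have h4 := hδy n
    have h5 : max (δ (y n)) (mx (tm B (Q T') (y n))) ≤ δ x := max_le h4 h3
    have h6 : mx x ≤ max (δ (y n)) (mx (tm B (Q T) (y n))) := by
      rw [hin T n hn, hMy]
      exact le_max_right _ _
    exact lt_of_le_of_lt h5 (lt_of_lt_of_le hx h6)
  refine ⟨fun T => ⟨_, hN T⟩, ?_⟩
  intro T T' hTT
  have h3 : ∀ z : A ⊗[ℂ] B, max (δ z) (mx (tm B (Q T) z)) = max (δ z) (mx (tm B (Q T') z)) :=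
    fun z => congrFun (congrArg Subtype.val hTT) z
  ext n
  constructor
  · intro hn
    by_contra hn'
    exact absurd (h3 (y n)) (hsep T T' n hn hn').ne'
  · intro hn
    by_contra hn'
    exact absurd (h3 (y n)) (hsep T' T n hn hn').ne

theorem card_ge (hA : IsFull A u) (B : Type) [CStarAlgebra B] :
    #{N : A ⊗[ℂ] B → ℝ // IsCStarNorm N} = 1 ∨
      2 ^ ℵ₀ ≤ #{N : A ⊗[ℂ] B → ℝ // IsCStarNorm N} := by
  by_cases h : ∃ N1 N2 : A ⊗[ℂ] B → ℝ, IsCStarNorm N1 ∧ IsCStarNorm N2 ∧ N1 ≠ N2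
  · right
    obtain ⟨N1, N2, h1, h2, h12⟩ := h
    obtain ⟨f, hf⟩ := exists_family hA h1 h2 h12
    have := Cardinal.mk_le_of_injective hf
    rwa [Cardinal.mk_set, Cardinal.mk_nat] at this
  · left
    push Not at h
    obtain ⟨δ, hδ, _⟩ := exists_least hA B
    rw [Cardinal.eq_one_iff_unique]
    exact ⟨⟨fun a b => Subtype.ext (h _ _ a.2 b.2)⟩, ⟨⟨δ, hδ⟩⟩⟩

end fam

end Pool.Agent.Helper22K.FN
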