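import Pool.Agent.Helper22K.FN.Exc
import Pool.Agent.H51R2.Spec.Rep
set_option autoImplicit false
set_option linter.unusedSectionVars false
open scoped TensorProduct ComplexOrder BigOperators InnerProductSpace CStarAlgebra

namespace Pool.Agent.Helper22K.FN
open Pool.Agent.Helper965.CN

theorem iter {c : ℕ → ℝ} {q M C : ℝ} (hq : 0 ≤ q) (hM : 0 ≤ M) (_hc0 : ∀ n, 0 ≤ c n)
    (h1 : ∀ n, c n ^ 2 ≤ q * c (n + 1)) (h2 : ∀ n, c n ≤ C * M ^ (2 ^ n)) : c 0 ≤ q * M := by
  by_contra hcon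
  push Not at hcon
  have hpos : 0 < c 0 := lt_of_le_of_lt (by positivity) hcon
  have hq0 : 0 < q := by
    rcases hq.eq_or_lt with h | h
    · have := h1 0
      rw [← h, zero_mul] at this
      nlinarith
    · exact h
  have h3 : ∀ n, (c 0 / q) ^ (2 ^ n) ≤ c n / q := by
    intro n
    induction n with
    | zero => simp
    | succ n ih =>
      rw [pow_succ 2 n, pow_mul]
      have h4 : ((c 0 / q) ^ (2 ^ n)) ^ 2 ≤ (c n / q) ^ 2 := pow_le_pow_left₀ (by positivity) ih 2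
      refine h4.trans ?_
      rw [div_pow, div_le_div_iff₀ (by positivity) hq0]
      have := h1 n
      nlinarith
  have hx : M < c 0 / q := by rw [lt_div_iff₀ hq0, mul_comm]; exact hcon
  have h5 : ∀ n, (c 0 / q) ^ (2 ^ n) ≤ C / q * M ^ (2 ^ n) := by
    intro n
    refine (h3 n).trans ?_
    rw [div_mul_eq_mul_div]
    exact div_le_div_of_nonneg_right (h2 n) hq0.le
  rcases hM.eq_or_lt with h | h
  · have := h5 0
    rw [← h] at this hx
    simp at this
    linarith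
  · set x := c 0 / q with hxd
    have hr : 1 < x / M := (one_lt_div h).2 hx
    have h6 : ∀ n : ℕ, (x / M) ^ (2 ^ n) ≤ C / q := by
      intro n
      rw [div_pow, div_le_iff₀ (by positivity)]
      exact h5 n
    obtain ⟨n, hn⟩ := pow_unbounded_of_one_lt (C / q) hr
    have h7 : (x / M) ^ n ≤ (x / M) ^ (2 ^ n) :=
      pow_le_pow_right₀ hr.le (Nat.lt_two_pow_self).le
    linarith [h6 n]

section act
variable {A B : Type} [CStarAlgebra A] [CStarAlgebra B]
variable {H K : Type} [NormedAddCommGroup H] [InnerProductSpace ℂ H] [CompleteSpace H]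
variable [NormedAddCommGroup K] [InnerProductSpace ℂ K] [CompleteSpace K]

/-- linear operators -/
noncomputable def cl (π : A →⋆ₐ[ℂ] (H →L[ℂ] H)) : A →ₗ[ℂ] (H →ₗ[ℂ] H) where
  toFun a := (π a : H →ₗ[ℂ] H)
  map_add' a b := by rw [map_add]; rfl
  map_smul' c a := by rw [map_smul]; rfl

theorem cl_apply (π : A →⋆ₐ[ℂ] (H →L[ℂ] H)) (a : A) (x : H) : cl π a x = π a x := rfl

/-- the action of `A ⊗ B` on the algebraic tensor product `H ⊗ K` -/
noncomputable def act (π : A →⋆ₐ[ℂ] (H →L[ℂ] H)) (ρ : B →⋆ₐ[ℂ] (K →L[ℂ] K)) :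
    A ⊗[ℂ] B →ₗ[ℂ] (H ⊗[ℂ] K →ₗ[ℂ] H ⊗[ℂ] K) :=
  TensorProduct.homTensorHomMap (RingHom.id ℂ) H K H K ∘ₗ TensorProduct.map (cl π) (cl ρ)

variable (π : A →⋆ₐ[ℂ] (H →L[ℂ] H)) (ρ : B →⋆ₐ[ℂ] (K →L[ℂ] K))

theorem act_tmul (a : A) (b : B) (x : H) (y : K) :
    act π ρ (a ⊗ₜ[ℂ] b) (x ⊗ₜ[ℂ] y) = π a x ⊗ₜ[ℂ] ρ b y := by
  simp [act, cl_apply]

theorem act_mul (s t : A ⊗[ℂ] B) (ζ : H ⊗[ℂ] K) :
    act π ρ (s * t) ζ = act π ρ s (act π ρ t ζ) := by
  induction s using TensorProduct.induction_on with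
  | zero => simp
  | add s s' hs hs' =>
    rw [add_mul, map_add, map_add, LinearMap.add_apply, LinearMap.add_apply, hs, hs']
  | tmul x y =>
    induction t using TensorProduct.induction_on with
    | zero => simp
    | add t t' ht ht' =>
      rw [mul_add, map_add, map_add, LinearMap.add_apply, LinearMap.add_apply, ht, ht', map_add]
    | tmul x' y' =>
      rw [Algebra.TensorProduct.tmul_mul_tmul]
      induction ζ using TensorProduct.induction_on with
      | zero => simp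
      | add ζ ζ' h h' => rw [map_add, map_add, map_add, h, h']
      | tmul a b =>
        rw [act_tmul, act_tmul, act_tmul, map_mul, map_mul]
        rfl

theorem act_star (t : A ⊗[ℂ] B) (ζ ζ' : H ⊗[ℂ] K) :
    inner ℂ (act π ρ t ζ) ζ' = inner ℂ ζ (act π ρ (star t) ζ') := by
  induction t using TensorProduct.induction_on with
  | zero => simp
  | add t t' ht ht' =>
    rw [star_add, map_add, map_add, LinearMap.add_apply, LinearMap.add_apply, inner_add_left,
      inner_add_right, ht, ht']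
  | tmul x y =>
    rw [TensorProduct.star_tmul]
    induction ζ using TensorProduct.induction_on with
    | zero => simp
    | add ζ₁ ζ₂ h₁ h₂ => rw [map_add, inner_add_left, inner_add_left, h₁, h₂]
    | tmul a b =>
      induction ζ' using TensorProduct.induction_on with
      | zero => simp
      | add ζ₁ ζ₂ h₁ h₂ => rw [map_add, inner_add_right, inner_add_right, h₁, h₂]
      | tmul c d =>
        rw [act_tmul, act_tmul, TensorProduct.inner_tmul, TensorProduct.inner_tmul, map_star, map_star,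
          ContinuousLinearMap.star_eq_adjoint, ContinuousLinearMap.star_eq_adjoint,
          ContinuousLinearMap.adjoint_inner_right, ContinuousLinearMap.adjoint_inner_right]

/-- vector functionals -/
noncomputable def vfn (ζ : H ⊗[ℂ] K) : A ⊗[ℂ] B →ₗ[ℂ] ℂ where
  toFun t := inner ℂ ζ (act π ρ t ζ)
  map_add' s t := by rw [map_add, LinearMap.add_apply, inner_add_right]
  map_smul' c t := by
    rw [map_smul, LinearMap.smul_apply, inner_smul_right, RingHom.id_apply, smul_eq_mul]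

theorem vfn_apply (ζ : H ⊗[ℂ] K) (t : A ⊗[ℂ] B) : vfn π ρ ζ t = inner ℂ ζ (act π ρ t ζ) := rfl

theorem vfn_star_mul (ζ : H ⊗[ℂ] K) (t : A ⊗[ℂ] B) :
    vfn π ρ ζ (star t * t) = ((‖act π ρ t ζ‖ ^ 2 : ℝ) : ℂ) := by
  rw [vfn_apply, act_mul, ← act_star]
  have h : (inner ℂ (act π ρ t ζ) (act π ρ t ζ) : ℂ) = ((‖act π ρ t ζ‖ : ℝ) : ℂ) ^ 2 :=
    inner_self_eq_norm_sq_to_K (𝕜 := ℂ) (act π ρ t ζ)
  rw [Complex.ofReal_pow]
  exact h

theorem vfn_pos (ζ : H ⊗[ℂ] K) (t : A ⊗[ℂ] B) : 0 ≤ vfn π ρ ζ (star t * t) := by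
  rw [vfn_star_mul]
  exact Complex.zero_le_real.2 (sq_nonneg _)

theorem vfn_slice (x : H) (y : K) (t : A ⊗[ℂ] B) :
    vfn π ρ (x ⊗ₜ[ℂ] y) t = inner ℂ y (ρ (sl B (vecF π x) t) y) := by
  induction t using TensorProduct.induction_on with
  | zero => simp [vfn_apply]
  | add s t hs ht =>
    rw [map_add, map_add, map_add, hs, ht, ← inner_add_right]
    rfl
  | tmul a b =>
    rw [vfn_apply, act_tmul, TensorProduct.inner_tmul, sl_tmul, map_smul, vecF_apply]
    show _ = inner ℂ y ((inner ℂ x (π a x) : ℂ) • (ρ b y))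
    rw [inner_smul_right]

theorem act_inj (hπ : Function.Injective π) (hρ : Function.Injective ρ) (t : A ⊗[ℂ] B)
    (h : ∀ x y, act π ρ t (x ⊗ₜ[ℂ] y) = 0) : t = 0 := by
  classical
  obtain ⟨b, hb⟩ := TensorProduct.eq_repr_basis_right (Module.Basis.ofVectorSpace ℂ B) t
  set c := Module.Basis.ofVectorSpace ℂ B with hc
  have key : ∀ i ∈ b.support, ∀ ξ : H, π (b i) ξ = 0 := by
    intro i hi ξ
    have h1 : ∀ ξ' : K, ∀ η : H, ∑ j ∈ b.support, inner ℂ η (π (b j) ξ) • (ρ (c j)) ξ' = 0 := by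
      intro ξ' η
      have h2 := h ξ ξ'
      rw [← hb, Finsupp.sum, map_sum, LinearMap.sum_apply] at h2
      have h3 := congrArg (fun z => TensorProduct.lid ℂ K
        (TensorProduct.map (innerSL ℂ η : H →L[ℂ] ℂ).toLinearMap LinearMap.id z)) h2
      simpa [act_tmul] using h3
    have h4 : ∀ η : H, ∑ j ∈ b.support, inner ℂ η (π (b j) ξ) • (c j) = 0 := by
      intro η
      apply hρ
      rw [map_zero, map_sum]
      ext ξ'
      have := h1 ξ' η
      simpa using this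
    have h5 := linearIndependent_iff'.1 c.linearIndependent b.support _ (h4 (π (b i) ξ)) i hi
    simpa using h5
  have hb0 : b = 0 := by
    ext1 i
    by_cases hi : i ∈ b.support
    · apply hπ
      ext1 ξ
      simpa using key i hi ξ
    · simpa using hi
  rw [← hb, hb0]
  simp

/-- product vector functionals -/
def Phi : Set (A ⊗[ℂ] B →ₗ[ℂ] ℂ) := {φ | ∃ (x : H) (y : K), ‖x‖ = 1 ∧ φ = vfn π ρ (x ⊗ₜ[ℂ] y)}

theorem Phi_adm : Adm (Phi π ρ) := by
  refine ⟨?_, fun t => ?_⟩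
  · rintro _ ⟨x, y, _, rfl⟩ t
    exact vfn_pos π ρ _ t
  · obtain ⟨C, hC⟩ := tensor_bdd t
    refine ⟨C, ?_⟩
    rintro _ ⟨x, y, _, rfl⟩ w
    exact hC _ (vfn_pos π ρ _) w

theorem phi_bd {u : ℕ → A} (hA : IsFull A u) {N : A ⊗[ℂ] B → ℝ} (h : IsCStarNorm N)
    (x : H) (y : K) (hx : ‖x‖ = 1) (t : A ⊗[ℂ] B) :
    (vfn π ρ (x ⊗ₜ[ℂ] y) t).re ≤ ‖y‖ ^ 2 * N t := by
  refine (Complex.re_le_norm _).trans ?_
  rw [vfn_slice]
  refine (norm_inner_le_norm _ _).trans ?_
  have h1 := slice_le (exc_vec hA π hx) h t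
  have h2 := (ρ (sl B (vecF π x) t)).le_opNorm y
  have h3 : ‖ρ (sl B (vecF π x) t)‖ ≤ N t := (NonUnitalStarAlgHom.norm_apply_le ρ _).trans h1
  calc ‖y‖ * ‖ρ (sl B (vecF π x) t) y‖ ≤ ‖y‖ * (N t * ‖y‖) := by
        refine mul_le_mul_of_nonneg_left (h2.trans ?_) (norm_nonneg _)
        exact mul_le_mul_of_nonneg_right h3 (norm_nonneg _)
    _ = _ := by ring

/-- the product vector norm is dominated by every C*-norm -/
theorem cn_Phi_le {u : ℕ → A} (hA : IsFull A u) {N : A ⊗[ℂ] B → ℝ} (h : IsCStarNorm N)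
    (t : A ⊗[ℂ] B) : cn (Phi π ρ) t ≤ N t := by
  apply cn_le (Phi_adm π ρ) t _ (h.nonneg t)
  rintro _ ⟨x, y, hx, rfl⟩ w
  set φ := vfn π ρ (x ⊗ₜ[ℂ] y) with hφ
  have hp : ∀ s, 0 ≤ φ (star s * s) := vfn_pos π ρ _
  set g : A ⊗[ℂ] B := star t * t with hg
  have hgs : star g = g := by rw [hg, star_mul, star_star]
  have hgn : ∀ m : ℕ, star (g ^ m) = g ^ m := fun m => by rw [star_pow, hgs]
  have hNg : N g = N t ^ 2 := h.cstar t
  have key := iter (c := fun n => (φ (star w * g ^ (2 ^ n) * w)).re) (q := (φ (star w * w)).re)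
    (M := N t ^ 2) (C := ‖y‖ ^ 2 * (N w * N w)) ?_ (sq_nonneg (N t)) ?_ ?_ ?_
  · rw [pow_zero, pow_one] at key
    rw [mul_comm]
    exact key
  · exact b1_re hp w
  · intro n
    rcases n with _ | n
    · rw [pow_zero, pow_one, hg, b1_conv]
      exact b1_re hp _
    · have e : star w * g ^ (2 ^ (n + 1)) * w = star (g ^ (2 ^ n) * w) * (g ^ (2 ^ n) * w) := by
        rw [star_mul, hgn, pow_succ, pow_mul, sq]
        simp only [mul_assoc]
      show 0 ≤ (φ (star w * g ^ (2 ^ (n + 1)) * w)).re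
      rw [e]
      exact b1_re hp _
  · intro n
    have h1 := b1_cs hp w (g ^ (2 ^ n) * w)
    have h0 : 0 ≤ (φ (star w * (g ^ (2 ^ n) * w))).re := by
      rcases n with _ | n
      · rw [pow_zero, pow_one, hg, ← mul_assoc, b1_conv]
        exact b1_re hp _
      · have e : star w * (g ^ (2 ^ (n + 1)) * w) = star (g ^ (2 ^ n) * w) * (g ^ (2 ^ n) * w) := by
          rw [star_mul, hgn, pow_succ, pow_mul, sq]
          simp only [mul_assoc]
        rw [e]
        exact b1_re hp _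
    have h2 := pow_le_pow_left₀ h0 h1 2
    rw [mul_pow, Real.sq_sqrt (b1_re hp _), Real.sq_sqrt (b1_re hp _)] at h2
    have e : star w * g ^ (2 ^ (n + 1)) * w = star (g ^ (2 ^ n) * w) * (g ^ (2 ^ n) * w) := by
      rw [star_mul, hgn, pow_succ, pow_mul, sq]
      simp only [mul_assoc]
    show (φ (star w * g ^ (2 ^ n) * w)).re ^ 2 ≤ (φ (star w * w)).re *
      (φ (star w * g ^ (2 ^ (n + 1)) * w)).re
    rw [e, mul_assoc]
    exact h2
  · intro n
    have hs := toSemi h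
    show (φ (star w * g ^ (2 ^ n) * w)).re ≤ ‖y‖ ^ 2 * (N w * N w) * (N t ^ 2) ^ (2 ^ n)
    refine (phi_bd π ρ hA h x y hx _).trans ?_
    rw [mul_assoc (‖y‖ ^ 2)]
    refine mul_le_mul_of_nonneg_left ?_ (sq_nonneg ‖y‖)
    have h3 := hs.pow_le' g (2 ^ n)
    rw [hNg] at h3
    calc N (star w * g ^ (2 ^ n) * w) ≤ N (star w * g ^ (2 ^ n)) * N w := h.mul_le _ _
      _ ≤ (N (star w) * N (g ^ (2 ^ n))) * N w :=
          mul_le_mul_of_nonneg_right (h.mul_le _ _) (h.nonneg _)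
      _ ≤ (N w * (N t ^ 2) ^ (2 ^ n)) * N w := by
          rw [h.norm_star]
          exact mul_le_mul_of_nonneg_right (mul_le_mul_of_nonneg_left h3 (h.nonneg _)) (h.nonneg _)
      _ = _ := by ring

theorem cn_Phi_norm (hπ : Function.Injective π) (hρ : Function.Injective ρ) (hne : ∃ x : H, ‖x‖ = 1) :
    IsCStarNorm (cn (Phi π ρ)) := by
  obtain ⟨x0, hx0⟩ := hne
  refine cn_isCStarNorm (Phi_adm π ρ) ⟨_, x0, 0, hx0, rfl⟩ ?_
  intro t ht
  have h1 : ∃ x y, act π ρ t (x ⊗ₜ[ℂ] y) ≠ 0 := by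
    by_contra hc
    push Not at hc
    exact ht (act_inj π ρ hπ hρ t hc)
  obtain ⟨x, y, hxy⟩ := h1
  have hx : x ≠ 0 := by
    rintro rfl
    rw [TensorProduct.zero_tmul, map_zero] at hxy
    exact hxy rfl
  have hxn : 0 < ‖x‖ := norm_pos_iff.2 hx
  refine ⟨vfn π ρ ((((‖x‖⁻¹ : ℝ) : ℂ) • x) ⊗ₜ[ℂ] y), ⟨_, y, ?_, rfl⟩, 1, ?_⟩
  · rw [norm_smul, Complex.norm_real, Real.norm_of_nonneg (by positivity), inv_mul_cancel₀ hxn.ne']
  · rw [star_one, one_mul, mul_one, vfn_star_mul, ← TensorProduct.smul_tmul', map_smul, norm_smul,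
      Complex.norm_real, Real.norm_of_nonneg (by positivity)]
    have : ‖act π ρ t (x ⊗ₜ[ℂ] y)‖ ≠ 0 := norm_ne_zero_iff.2 hxy
    exact_mod_cast pow_ne_zero 2 (mul_ne_zero (inv_ne_zero hxn.ne') this)

end act

/-- On `A ⊗ B`, with `A` the full C*-algebra of the free group, there is a least C*-norm. -/
theorem exists_least {A : Type} [CStarAlgebra A] {u : ℕ → A} (hA : IsFull A u)
    (B : Type) [CStarAlgebra B] :
    ∃ δ : A ⊗[ℂ] B → ℝ, IsCStarNorm δ ∧ ∀ N : A ⊗[ℂ] B → ℝ, IsCStarNorm N → ∀ t, δ t ≤ N t := by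
  obtain ⟨H, i1, i2, i3, π, hπ⟩ := H770R2.Spec.prove_rep A
  obtain ⟨K, j1, j2, j3, ρ, hρ⟩ := H770R2.Spec.prove_rep B
  have hπi : Function.Injective π := by
    rw [injective_iff_map_eq_zero]
    intro a ha
    rw [← norm_eq_zero, ← hπ, ha, norm_zero]
  have hρi : Function.Injective ρ := by
    rw [injective_iff_map_eq_zero]
    intro a ha
    rw [← norm_eq_zero, ← hρ, ha, norm_zero]
  have hne : ∃ x : H, ‖x‖ = 1 := by
    by_contra hc
    push Not at hc
    have h1 : ∀ x : H, x = 0 := by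
      intro x
      by_contra hx
      have hxn : 0 < ‖x‖ := norm_pos_iff.2 hx
      apply hc (((‖x‖⁻¹ : ℝ) : ℂ) • x)
      rw [norm_smul, Complex.norm_real, Real.norm_of_nonneg (by positivity), inv_mul_cancel₀ hxn.ne']
    obtain ⟨χ, _⟩ := hA.lift ℂ (fun _ => 1) (fun _ => one_mem _)
    have h2 : (1 : A) = 0 := by
      apply hπi
      ext x
      rw [h1 (π 1 x), h1 (π 0 x)]
    have h3 : χ 1 = χ 0 := by rw [h2]
    rw [map_one, map_zero] at h3
    exact one_ne_zero h3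
  exact ⟨cn (Phi π ρ), cn_Phi_norm π ρ hπi hρi hne, fun N hN t => cn_Phi_le π ρ hA hN t⟩

end Pool.Agent.Helper22K.FN
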